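import Pool.Agent.H18.TE.Targets
import Pool.Agent.H8.TD.Basic

/-!
# Backward heights: elementary lemmas
-/

set_option autoImplicit false

open MvPolynomial
open Pool.Agent.H12.ZD (pmap v O Res DenseOrbit NoInv)
open Pool.Agent.H18.HIT
open Pool.Agent.H8.ZA (HFam Const NA sz)
open Pool.Agent.H8.TD
open Pool.Agent.H18.TE

namespace Pool.Agent.H18.BKH

variable {K : IntermediateField ℚ Qb}

theorem log_finite (F : HFam K) {q : Qb} (hq : q ≠ 0) :
    (Function.support fun i => Real.log (F.abv i q)).Finite :=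
  (F.finite q hq).subset fun i hi h1 => hi (by simp only [h1, Real.log_one])

/-- comparison of heights without the product formula -/
theorem ht_lg (F : HFam K) {x y z : Fin 3 → Qb} {n a b : ℝ} (q : Qb)
    (hq0 : q ≠ 0) (C : F.ι → ℝ) (hC : Const F C)
    (h : ∀ i, n * Real.log (sz (F.abv i) x) + Real.log (F.abv i q) ≤
      a * Real.log (sz (F.abv i) y) + b * Real.log (sz (F.abv i) z) + Real.log (C i)) :
    n * F.ht x + lg F q ≤ a * F.ht y + b * F.ht z + ∑ᶠ i, Real.log (C i) := by
  have hlogq := log_finite F hq0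
  have e1 : n * F.ht x = ∑ᶠ i, n * Real.log (sz (F.abv i) x) :=
    mul_finsum _ _
  have e2 : a * F.ht y = ∑ᶠ i, a * Real.log (sz (F.abv i) y) :=
    mul_finsum _ _
  have e3 : b * F.ht z = ∑ᶠ i, b * Real.log (sz (F.abv i) z) :=
    mul_finsum _ _
  have s1 : (Function.support fun i => n * Real.log (sz (F.abv i) x)).Finite :=
    (Pool.Agent.H8.ZA.log_sz_finite F x).subset fun i hi h1 => hi (by simp only [h1, mul_zero])
  have s2 : (Function.support fun i => a * Real.log (sz (F.abv i) y)).Finite :=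
    (Pool.Agent.H8.ZA.log_sz_finite F y).subset fun i hi h1 => hi (by simp only [h1, mul_zero])
  have s3 : (Function.support fun i => b * Real.log (sz (F.abv i) z)).Finite :=
    (Pool.Agent.H8.ZA.log_sz_finite F z).subset fun i hi h1 => hi (by simp only [h1, mul_zero])
  have e0 : n * F.ht x + lg F q =
      ∑ᶠ i, (n * Real.log (sz (F.abv i) x) + Real.log (F.abv i q)) := by
    rw [finsum_add_distrib s1 hlogq, e1]
    rfl
  have e4 : a * F.ht y + b * F.ht z + ∑ᶠ i, Real.log (C i) =
      ∑ᶠ i, (a * Real.log (sz (F.abv i) y) + b * Real.log (sz (F.abv i) z) +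
        Real.log (C i)) := by
    rw [finsum_add_distrib _ hC.log_finite, finsum_add_distrib s2 s3, e2, e3]
    exact (s2.union s3).subset (Function.support_add _ _)
  rw [e0, e4]
  apply finsum_le_finsum'
  · exact (s1.union hlogq).subset (Function.support_add _ _)
  · refine (((s2.union s3).subset (Function.support_add _ _)).union hC.log_finite).subset
      (Function.support_add _ _)
  · exact h

theorem lg_mul (F : HFam K) {x y : Qb} (hx : x ≠ 0) (hy : y ≠ 0) :
    lg F (x * y) = lg F x + lg F y := by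
  unfold lg
  rw [← finsum_add_distrib (log_finite F hx) (log_finite F hy)]
  congr 1
  funext i
  rw [map_mul, Real.log_mul ((F.abv i).ne_zero hx) ((F.abv i).ne_zero hy)]

theorem lg_one (F : HFam K) : lg F 1 = 0 := by
  unfold lg
  simp

theorem lg_pow (F : HFam K) {x : Qb} (hx : x ≠ 0) (n : ℕ) : lg F (x ^ n) = n * lg F x := by
  induction n with
  | zero => simp [lg_one]
  | succ n ih =>
    rw [pow_succ, lg_mul F (pow_ne_zero n hx) hx, ih]
    push_cast
    ring

theorem lg_prod (F : HFam K) {ι : Type*} (s : Finset ι) (f : ι → Qb) (hf : ∀ i ∈ s, f i ≠ 0) :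
    lg F (∏ i ∈ s, f i) = ∑ i ∈ s, lg F (f i) := by
  classical
  induction s using Finset.induction_on with
  | empty => simp [lg_one]
  | insert i s hi ih =>
    rw [Finset.prod_insert hi, Finset.sum_insert hi, lg_mul F (hf i (Finset.mem_insert_self _ _))
      (Finset.prod_ne_zero_iff.2 fun j hj => hf j (Finset.mem_insert_of_mem hj)),
      ih fun j hj => hf j (Finset.mem_insert_of_mem hj)]

theorem lg_mem (F : HFam K) {x : Qb} (hx : x ∈ K) (hx0 : x ≠ 0) : lg F x = 0 := F.prod x hx hx0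

variable {Γ : Finset (Qb ≃ₐ[K] Qb)} {L : IntermediateField K Qb}

/-- the product of the conjugates is in the base field -/
theorem Gc.prod_mem (h : Gc K Γ L) (hFIX : T_FIX) {c : Qb} (hc : c ∈ L) :
    (∏ σ ∈ Γ, σ c) ∈ K := by
  apply hFIX
  intro τ
  obtain ⟨π, hπ⟩ := h.perm τ
  have e1 : ∀ f : (Qb ≃ₐ[K] Qb) → Qb, ∏ σ ∈ Γ, f σ = ∏ σ : Γ, f σ := fun f =>
    (Finset.prod_coe_sort Γ f).symm
  rw [map_prod, e1, e1]
  rw [← Equiv.prod_comp π (fun σ : Γ => (σ : Qb ≃ₐ[K] Qb) c)]
  exact Finset.prod_congr rfl fun σ _ => hπ σ c hc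

/-- the error terms vanish on average -/
theorem Gc.lg_sum (h : Gc K Γ L) (hFIX : T_FIX) (F : HFam K) {c : Qb} (hc : c ∈ L)
    (hc0 : c ≠ 0) : ∑ σ ∈ Γ, lg F (σ c) = 0 := by
  rw [← lg_prod F Γ (fun σ => σ c) fun σ _ => (map_ne_zero σ).2 hc0]
  apply lg_mem F (Gc.prod_mem h hFIX hc)
  exact Finset.prod_ne_zero_iff.2 fun σ _ => (map_ne_zero σ).2 hc0

theorem av_nonneg (F : HFam K) (y : Fin 4 → Qb) : 0 ≤ av F Γ y :=
  Finset.sum_nonneg fun _ _ => Pool.Agent.H8.ZA.ht_nonneg F _

/-- points over the base field -/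
theorem av_mem (F : HFam K) {y : Fin 4 → Qb} (hy : ∀ i, y i ∈ K) :
    av F Γ y = Γ.card * F.ht (aff y) := by
  unfold av
  have h1 : ∀ σ ∈ Γ, F.ht (aff fun i => σ (y i)) = F.ht (aff y) := by
    intro σ _
    have h2 : (fun i => σ (y i)) = y := by
      funext i
      exact σ.commutes ⟨y i, hy i⟩
    rw [h2]
  rw [Finset.sum_congr rfl h1, Finset.sum_const, nsmul_eq_mul]

end Pool.Agent.H18.BKH
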