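import Pool.Agent.H18.BKH.Core
import Pool.Agent.H68.BKH.BCH
import Pool.Agent.H54.BKH.BDV
import Pool.Agent.H4.BKH.CHR
import Pool.Agent.H78.BKH.EQD
import Pool.Agent.H77.BKH.FIX
import Pool.Agent.H33.BKH.GAL
import Pool.Agent.H36.BKH.GR4
import Pool.Agent.H94.BKH.HLC
import Pool.Agent.H35.BKH.HLN
import Pool.Agent.H34.BKH.IDG
import Pool.Agent.H34.BKH.JAL
import Pool.Agent.H63.BKH.KCL
import Pool.Agent.H33.BKH.LFX
import Pool.Agent.H74.BKH.LGL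
import Pool.Agent.H72.BKH.LGV
import Pool.Agent.H26.BKH.PC1
import Pool.Agent.H77.BKH.PRH
import Pool.Agent.H86.BKH.PRV
import Pool.Agent.H54.BKH.SLR

/-!
# Backward heights: all the rows together
-/

open Pool.Agent.H18.HIT Pool.Agent.H8.TD Pool.Agent.H18.TE

namespace Pool.Agent.H18.BKH.Al

theorem bch : T_BCH := Pool.Agent.H68.BKH.pf_BCH
theorem bdv : T_BDV := Pool.Agent.H54.BKH.pf_BDV Pool.Agent.H8.TD.Al.ctd
theorem chr : T_CHR := Pool.Agent.H4.BKH.pf_CHR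
theorem eqd : T_EQD := Pool.Agent.H78.BKH.pf_EQD
theorem fix : T_FIX := Pool.Agent.H77.BKH.pf_FIX
theorem gal : T_GAL := Pool.Agent.H33.BKH.pf_GAL
theorem gr4 : T_GR4 := Pool.Agent.H36.BKH.pf_GR4
theorem hlc : T_HLC := Pool.Agent.H94.BKH.pf_HLC
theorem hln : T_HLN := Pool.Agent.H35.BKH.pf_HLN
theorem idg : T_IDG := Pool.Agent.H34.BKH.pf_IDG
theorem jal : T_JAL := Pool.Agent.H34.BKH.pf_JAL
theorem kcl : T_KCL := Pool.Agent.H63.BKH.pf_KCL kil bch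
theorem lfx : T_LFX := Pool.Agent.H33.BKH.pf_LFX Pool.Agent.H18.HIT.All.elm
  Pool.Agent.H18.HIT.All.pel Pool.Agent.H18.HIT.All.cve
theorem slr : T_SLR := Pool.Agent.H54.BKH.pf_SLR
theorem lgl : T_LGL := Pool.Agent.H74.BKH.pf_LGL kcl Pool.Agent.H8.TD.Al.pbk slr idg
  Pool.Agent.H8.TD.Al.ctd
theorem lgv : T_LGV := Pool.Agent.H72.BKH.pf_LGV lgl bdv gal fix
theorem pc1 : T_PC1 := Pool.Agent.H26.BKH.pf_PC1
theorem prh : T_PRH := Pool.Agent.H77.BKH.pf_PRH jal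
theorem prv : T_PRV := Pool.Agent.H86.BKH.pf_PRV Pool.Agent.H18.HIT.All.ina

end Pool.Agent.H18.BKH.Al
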