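import Pool.Agent.H18.BKH.Core0

/-!
# Backward heights: the core
-/

set_option autoImplicit false

open MvPolynomial
open Pool.Agent.H12.ZD (pmap v O Res DenseOrbit NoInv)
open Pool.Agent.H18.HIT Pool.Agent.H8.HIT
open Pool.Agent.H8.ZA (HFam Const NA sz)
open Pool.Agent.H8.TD
open Pool.Agent.H8.P2 (Lp Lm pmap_Lp Lp_ne Lm_ne Lp_Lm Lm_Lp comp_Lm_Lp comp_Lp_Lm comp_conj
  mem_vanT prime_conj star_conj tot_conj star tot cone iter_conj aeval_conj lam_Lm Lm_lam)
open Pool.Agent.H18.TE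

namespace Pool.Agent.H18.BKH

lemma frac1 (a b c d β κ : ℝ) {G : ℝ} (hG : 0 < G) :
    a / G + β * (b / G) + c - κ * (d / G) = (a + β * b + G * c - κ * d) / G := by
  field_simp

lemma frac2 (ρ A cA cs G : ℝ) {E : ℝ} (hE : 0 < E) :
    (ρ * A - (cA / E + cs)) * G * E = G * (E * ρ * A - cA) - E * (G * cs) := by
  field_simp
  ring

lemma frac3 (a b c : ℝ) {G : ℝ} (hG : 0 < G) :
    a / G + c - 2 * (b / G) = (a + G * c - 2 * b) / G := by
  field_simp

/-- **the core**: homogeneous maps in four variables whose second dynamical degree is larger than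
the topological degree -/
theorem coreB (hGR4 : T_GR4) (hFIX : T_FIX) (hGAL : T_GAL) (hEQD : T_EQD) (hHLC : T_HLC)
    (hHLN : T_HLN) (hCHR : T_CHR) (hLFX : T_LFX) (hPRH : T_PRH) (hPRV : T_PRV) (hPC1 : T_PC1)
    (hLGV : T_LGV) (F : Tup 4 Qb) {d : ℕ} (hd : 2 ≤ d) (hF : ∀ i, (F i).IsHomogeneous d)
    (hinjF : Function.Injective (aeval F : Po 4 Qb →ₐ[Qb] Po 4 Qb)) (hinv : NoInv F) (e : ℕ)
    (he : 1 ≤ e)
    (hpre1 : ¬ ∃ c : Po 4 Qb, c ≠ 0 ∧ ∀ y : Fin 4 → Qb, eval y c ≠ 0 →
      ∀ S : Finset (Fin 4 → Qb), (∀ x ∈ S, pmap F x = y) →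
      (∀ x ∈ S, ∀ x' ∈ S, ∀ t : Qb, (∀ i, x' i = t * x i) → x' = x) → S.card ≤ 1)
    {τ : K3 Qb →ₐ[Qb] K3 Qb} {G : ℕ → Tup 4 Qb} {a' : ℕ → ℕ} (hdata : Data τ G a' e)
    (hfac : ∀ n, ∃ h : Po 4 Qb, ∀ i, it F n i = h * G n i)
    (c : ℝ) (hc : (e : ℝ) < c)
    (hgrow : ∀ N, ∃ n ≥ N, ∃ s s' s'' : Fin 3 → Qb,
      c ^ n ≤ (dg Qb {lc s (xx Qb), lc s' (ph τ n), lc s'' (ph τ n)} : ℝ))
    (hslow : ∀ c' : ℝ, (e : ℝ) < c' → ∃ N, ∀ n ≥ N, (a' n : ℝ) < c' ^ n)
    (b : Po 4 Qb) (hb : b ≠ 0) :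
    ∃ x : Fin 4 → Qb, (∀ n : ℕ, eval ((pmap F)^[n] x) b ≠ 0) ∧
      (∀ n : ℕ, (pmap F)^[n] x ≠ 0) ∧ DenseOrbit F x := by
  classical
  obtain ⟨m, Y, κ, β, b₁, S₁, s, s', s'', hm, hY, hb₁, hβ, hκ, hβκ, hβρ, hYs, hrec⟩ :=
    recA hGR4 hFIX hdata he c hc hgrow hslow
  obtain ⟨E, Y', P, cχ, hE, hPhom, hPcop, hP0, hcχ, hEY, hroot, hlift⟩ :=
    chr_data hCHR hdata he hYs
  obtain ⟨ρ, hρdef⟩ : ∃ ρ : ℝ, ρ = (Y : ℝ) / (e : ℝ) ^ m := ⟨_, rfl⟩
  rw [← hρdef] at hβρ hEY
  have hρ : 0 < ρ := by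
    rw [hρdef]
    have h1 : (0 : ℝ) < e := by exact_mod_cast he
    have h2 : (0 : ℝ) < Y := by exact_mod_cast hY
    positivity
  have hGm0 : G m 0 ≠ 0 := by
    intro h0
    apply hdata.ne m
    rw [h0, map_zero]
  obtain ⟨θ₁, Φ₁, Δ₁, R₁, hprim₁⟩ := All.pel _ Qb F hinjF
  have hcov := All.cve 4 Qb F θ₁ Φ₁ Δ₁ R₁ hinjF hprim₁
  obtain ⟨p, k₀, a, H₀, hp, hk₀, -, hinj₀, -, hconj₀, hav⟩ := setup F (b * X 0 * b₁)
    Φ₁.natDegree (Pool.Agent.H8.P2.natDegree_pos hprim₁) hcov
    (mul_ne_zero (mul_ne_zero hb (X_ne_zero 0)) hb₁)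
  -- the iterate
  obtain ⟨k, hkdef⟩ : ∃ k : ℕ, k = k₀ * m := ⟨_, rfl⟩
  have hk : 1 ≤ k := by
    rw [hkdef]
    exact Nat.one_le_iff_ne_zero.2 (Nat.mul_ne_zero (by omega) (by omega))
  have hmk : m ≤ k := by
    rw [hkdef]
    exact Nat.le_mul_of_pos_left m hk₀
  obtain ⟨H, hHit⟩ := flQ_it p H₀ m
  have hinj : Function.Injective (aeval (flQ p H) : Po 4 Qb →ₐ[Qb] Po 4 Qb) := by
    rw [hHit]
    exact aeval_it_injective hinj₀ m
  have hconj : ∀ z, (pmap F)^[k] (lam p a z) = lam p a (pmap (flQ p H) z) := by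
    intro z
    rw [hkdef, conj_iter F (flQ p H₀) p a k₀ hconj₀ m z, hHit, pmap_it]
  have hconjT : ∀ z, pmap (it F k) (lam p a z) = lam p a (pmap (flQ p H) z) := by
    intro z
    rw [pmap_it]
    exact hconj z
  have hT : ∀ i, (it F k i).IsHomogeneous (d ^ k) := it_hom hF k
  have hD : 2 ≤ d ^ k := hd.trans (Nat.le_self_pow (by omega) d)
  have hNT : NoInv (it F k) := All.nit 4 Qb F k hinjF hk hinv
  have hinvG : NoInv (flQ p H) := by
    apply noInv_conj (it F k) (flQ p H) (fun i => (a i : Qb)) (Pool.Agent.H8.P2.pp_ne p) _ hNT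
    intro z
    exact hconjT z
  obtain ⟨c₁, hc₁, hint⟩ := All.igc 4 Qb (flQ p H) hinj
  have hB₀ : aeval (flQ p H) c₁ ≠ 0 := by
    intro h0
    exact hc₁ ((inj_iff _).mp hinj c₁ h0)
  obtain ⟨b₂, hb₂, hcan⟩ := All.can 4 Qb (flQ p H) (aeval (flQ p H) c₁) hinj hinvG hB₀
  obtain ⟨θ, Φ, Δ, R, hprim⟩ := All.pel 4 Qb (flQ p H) hinj
  obtain ⟨hm', hhm'⟩ := hfac m
  obtain ⟨cL, hcL, hcL'⟩ := hLFX F (G m) hm' d (a' m) m k (by omega) (hdata.pos m) hmk hF
    (hdata.hom m) hinjF hhm'
  obtain ⟨y, hy, hyb⟩ := core4 p hp H (c₁ * b₂ * aeval (Lp p a) (P 0 * X 0 * cχ * cL))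
    (mul_ne_zero (mul_ne_zero hc₁ hb₂) (Lp_ne p a (mul_ne_zero (mul_ne_zero
      (mul_ne_zero hP0 (X_ne_zero 0)) hcχ) hcL))) hinj θ Φ Δ R hprim
  set x₀ : Fin 4 → Qb := lam p a (cZ y) with hx₀
  rw [map_mul] at hy
  have hy1 := right_ne_zero_of_mul hy
  rw [Pool.Agent.H18.HIT.eval_aeval, pmap_Lp, map_mul, map_mul, map_mul, eval_X] at hy1
  have hx₀P : eval x₀ (P 0) ≠ 0 :=
    left_ne_zero_of_mul (left_ne_zero_of_mul (left_ne_zero_of_mul hy1))
  have hx₀0 : x₀ 0 ≠ 0 := right_ne_zero_of_mul (left_ne_zero_of_mul (left_ne_zero_of_mul hy1))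
  obtain ⟨cV, hcV, hcV'⟩ := Al.lav Qb (E + 1) P x₀ hPcop ⟨0, hx₀P⟩
  have h01 : (0 : Fin 4) ≠ 1 := by decide
  have hcM : (C (x₀ 0) * X 1 - C (x₀ 1) * X 0 : Po 4 Qb) ≠ 0 := by
    intro h0
    have h1 := congrArg (coeff (Finsupp.single 1 1)) h0
    rw [coeff_sub, coeff_C_mul, coeff_C_mul, coeff_X, coeff_X, if_pos rfl, if_neg
      (fun h => h01 ((Finsupp.single_left_inj one_ne_zero).mp h)), mul_zero, sub_zero, mul_one,
      coeff_zero] at h1
    exact hx₀0 h1
  obtain ⟨b', hb', hbt⟩ := hyb (cV * (C (x₀ 0) * X 1 - C (x₀ 1) * X 0) * (P 0) * X 0)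
    (mul_ne_zero (mul_ne_zero (mul_ne_zero hcV hcM) hP0) (X_ne_zero 0))
  rw [map_mul, map_mul, map_mul] at hb'
  have hbL := hcV' (cZ b') (left_ne_zero_of_mul (left_ne_zero_of_mul (left_ne_zero_of_mul hb')))
  have hbM := right_ne_zero_of_mul (left_ne_zero_of_mul (left_ne_zero_of_mul hb'))
  have hbP := right_ne_zero_of_mul (left_ne_zero_of_mul hb')
  have hb0 := right_ne_zero_of_mul hb'
  rw [eval_X] at hb0
  rw [map_sub, map_mul, map_mul, eval_C, eval_C, eval_X, eval_X] at hbM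
  set pp : Qb := ((p : ℕ) : Qb) ^ 2 with hpp
  have hpp0 : pp ≠ 0 := Pool.Agent.H8.P2.pp_ne p
  set w : Fin 4 → Qb := fun i => pp * cZ b' i with hw
  have hxt : ∀ t : ℤ, lam p a (cZ fun i => y i + t * b' i) = fun i => x₀ i + (t : Qb) * w i := by
    intro t
    funext i
    simp only [lam, cZ, hx₀, hw, hpp]
    push_cast
    ring
  have hwP : eval w (P 0) ≠ 0 := by
    rw [hw, eval_smul (hPhom 0)]
    exact mul_ne_zero (pow_ne_zero _ hpp0) hbP
  -- the number field
  obtain ⟨K, hKfin, hK⟩ := exists_K (S₁ ∪ ((Finset.univ.biUnion fun i => (F i).coeffs) ∪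
    ((Finset.univ.biUnion fun i => (it F k i).coeffs) ∪
    (Finset.univ.image x₀ ∪ (Finset.univ.image w ∪ ((ln x₀ w (P 0)).coeffs ∪
      ((ln x₀ w (X 0)).coeffs ∪ ((Finset.univ.biUnion fun j => (P j).coeffs) ∪
        (Finset.univ.image s ∪ Finset.univ.image fun i => (a i : Qb))))))))))
  obtain ⟨F'⟩ := Pool.Agent.H8.ZA.F.PFX K hKfin
  have hKS : ∀ x ∈ S₁, x ∈ K := fun x hx => hK x (Finset.mem_union_left _ hx)
  have hKF : ∀ i, ∀ c ∈ (F i).coeffs, c ∈ K := fun i c hc =>
    hK c (Finset.mem_union_right _ (Finset.mem_union_left _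
      (Finset.mem_biUnion.2 ⟨i, Finset.mem_univ i, hc⟩)))
  have hKT : ∀ i, ∀ c ∈ (it F k i).coeffs, c ∈ K := fun i c hc =>
    hK c (Finset.mem_union_right _ (Finset.mem_union_right _ (Finset.mem_union_left _
      (Finset.mem_biUnion.2 ⟨i, Finset.mem_univ i, hc⟩))))
  have hKx : ∀ i, x₀ i ∈ K := fun i =>
    hK _ (Finset.mem_union_right _ (Finset.mem_union_right _ (Finset.mem_union_right _
      (Finset.mem_union_left _ (Finset.mem_image_of_mem _ (Finset.mem_univ i))))))
  have hKw : ∀ i, w i ∈ K := fun i =>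
    hK _ (Finset.mem_union_right _ (Finset.mem_union_right _ (Finset.mem_union_right _
      (Finset.mem_union_right _ (Finset.mem_union_left _
        (Finset.mem_image_of_mem _ (Finset.mem_univ i)))))))
  have hKP0 : ∀ j, (ln x₀ w (P 0)).coeff j ∈ K := coeff_mem _ fun x hx =>
    hK _ (Finset.mem_union_right _ (Finset.mem_union_right _ (Finset.mem_union_right _
      (Finset.mem_union_right _ (Finset.mem_union_right _ (Finset.mem_union_left _ hx))))))
  have hKX : ∀ j, (ln x₀ w (X 0)).coeff j ∈ K := coeff_mem _ fun x hx =>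
    hK _ (Finset.mem_union_right _ (Finset.mem_union_right _ (Finset.mem_union_right _
      (Finset.mem_union_right _ (Finset.mem_union_right _ (Finset.mem_union_right _
        (Finset.mem_union_left _ hx)))))))
  have hKP : ∀ j, ∀ c ∈ (P j).coeffs, c ∈ K := fun j c hc =>
    hK c (Finset.mem_union_right _ (Finset.mem_union_right _ (Finset.mem_union_right _
      (Finset.mem_union_right _ (Finset.mem_union_right _ (Finset.mem_union_right _
        (Finset.mem_union_right _ (Finset.mem_union_left _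
          (Finset.mem_biUnion.2 ⟨j, Finset.mem_univ j, hc⟩)))))))))
  have hKs : ∀ i, s i ∈ K := fun i =>
    hK _ (Finset.mem_union_right _ (Finset.mem_union_right _ (Finset.mem_union_right _
      (Finset.mem_union_right _ (Finset.mem_union_right _ (Finset.mem_union_right _
        (Finset.mem_union_right _ (Finset.mem_union_right _ (Finset.mem_union_left _
          (Finset.mem_image_of_mem _ (Finset.mem_univ i)))))))))))
  have hKa : ∀ i, (a i : Qb) ∈ K := fun i =>
    hK _ (Finset.mem_union_right _ (Finset.mem_union_right _ (Finset.mem_union_right _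
      (Finset.mem_union_right _ (Finset.mem_union_right _ (Finset.mem_union_right _
        (Finset.mem_union_right _ (Finset.mem_union_right _ (Finset.mem_union_right _
          (Finset.mem_image_of_mem (fun i => (a i : Qb)) (Finset.mem_univ i)))))))))))
  obtain ⟨c₀, hc₀⟩ := hrec K F' hKS
  obtain ⟨cs, hcs⟩ := hHLC s K F'
  -- the heights along the line
  obtain ⟨cA, hcA⟩ := hHLN E Y' (fun j => ln x₀ w (P j)) (fun j => (ln_coeff (hPhom j) x₀ w).1)
    ⟨0, by rw [(ln_coeff (hPhom 0) x₀ w).2]; exact hwP⟩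
    (by
      intro t
      obtain ⟨i, hi⟩ := hbL (t * pp)
      refine ⟨i, ?_⟩
      rw [eval_ln]
      have h1 : (fun j => x₀ j + t * w j) = fun j => x₀ j + t * pp * cZ b' j := by
        funext j
        rw [hw]
        ring
      rw [h1]
      exact hi)
    (by
      intro h0
      apply hwP
      rw [← (ln_coeff (hPhom 0) x₀ w).2, h0, Polynomial.coeff_zero]) K F' hKP0
  obtain ⟨cB, hcB⟩ := ht_line (fun i => X i) 1 (fun i => isHomogeneous_X Qb i) x₀ w
    (by
      rw [eval_X, hw]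
      exact mul_ne_zero hpp0 hb0)
    (by
      intro t
      by_contra hcon
      push Not at hcon
      have h1 := hcon 0
      have h2 := hcon 1
      rw [eval_X] at h1 h2
      apply hbM
      have h3 : pp * (x₀ 0 * cZ b' 1 - x₀ 1 * cZ b' 0) = x₀ 0 * w 1 - x₀ 1 * w 0 := by
        rw [hw]
        ring
      have h4 : x₀ 0 * w 1 - x₀ 1 * w 0 = 0 := by
        have h5 : x₀ 0 = -(t * w 0) := eq_neg_of_add_eq_zero_left h1
        have h6 : x₀ 1 = -(t * w 1) := eq_neg_of_add_eq_zero_left h2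
        rw [h5, h6]
        ring
      rw [h4] at h3
      exact (mul_eq_zero.mp h3).resolve_left hpp0) K F' hKX
  -- the point
  obtain ⟨A₀, hA₀⟩ := exists_large (ρ := ρ) (B := |cB|) (C := cA / E + cs) (c₀ := c₀) hρ
  obtain ⟨Mb, hMb⟩ := exists_nat_gt (Real.exp (max A₀ 0))
  obtain ⟨t, htM, z, Q₁, hzt, hzc, hz, hzΔ, hQ₁, hPvan, hgal, hI⟩ := hbt K hKfin Mb
  rw [map_mul, map_mul] at hz
  set x : Fin 4 → Qb := lam p a (cO z) with hx
  have hxe : x = fun i => x₀ i + (t : Qb) * w i := by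
    rw [hx, hzc]
    exact hxt t
  have hz1 := right_ne_zero_of_mul hz
  rw [Pool.Agent.H18.HIT.eval_aeval, pmap_Lp, map_mul, map_mul, map_mul, eval_X] at hz1
  have hxP : eval x (P 0) ≠ 0 :=
    left_ne_zero_of_mul (left_ne_zero_of_mul (left_ne_zero_of_mul hz1))
  have hxχ : eval x cχ ≠ 0 := right_ne_zero_of_mul (left_ne_zero_of_mul hz1)
  have hxL : eval x cL ≠ 0 := right_ne_zero_of_mul hz1
  have havz : ∀ (z' : Fin 4 → O p) (n : ℕ), eval ((pmap F)^[n] (lam p a (cO z'))) b ≠ 0 ∧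
      (pmap F)^[n] (lam p a (cO z')) 0 ≠ 0 ∧ eval ((pmap F)^[n] (lam p a (cO z'))) b₁ ≠ 0 := by
    intro z' n
    have h1 := hav n z'
    rw [map_mul, map_mul, eval_X] at h1
    exact ⟨left_ne_zero_of_mul (left_ne_zero_of_mul h1),
      right_ne_zero_of_mul (left_ne_zero_of_mul h1), right_ne_zero_of_mul h1⟩
  have hxK : ∀ i, x i ∈ K := by
    intro i
    rw [hxe]
    exact add_mem (hKx i) (mul_mem (intCast_mem K t) (hKw i))
  have hKorb : ∀ n i, (pmap F)^[n] x i ∈ K := orbit_mem F hKF x hxK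
  have ht0 : t ≠ 0 := by
    rintro rfl
    rw [abs_zero] at htM
    exact absurd htM (by have := Int.natCast_nonneg Mb; omega)
  set A : ℝ := F'.arch.card * Real.log |(t : ℝ)| with hA
  have hlog : max A₀ 0 ≤ Real.log |(t : ℝ)| := by
    have h2 : (Mb : ℝ) < |(t : ℝ)| := by exact_mod_cast htM
    rw [Real.le_log_iff_exp_le ((Nat.cast_nonneg Mb).trans_lt h2)]
    exact (hMb.trans h2).le
  have hAA : A₀ ≤ A := by
    have h3 : (1 : ℝ) ≤ F'.arch.card := by
      exact_mod_cast F'.arch_nonempty.card_pos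
    have h4 : 0 ≤ Real.log |(t : ℝ)| := (le_max_right _ _).trans hlog
    have h5 : 1 * Real.log |(t : ℝ)| ≤ A := mul_le_mul_of_nonneg_right h3 h4
    have h6 := (le_max_left A₀ 0).trans hlog
    linarith
  obtain ⟨hA0, hA1, hA2⟩ := hA₀ A hAA
  refine ⟨x, fun n => (havz z n).1, fun n h0 => (havz z n).2.1 (by rw [h0]; rfl), ?_⟩
  apply dense_of_conj F p k a H hconj
  by_contra hne
  by_cases hcase : ∀ W : Po 4 Qb, Irreducible W → ∃ c ∈ van (flQ p H) (cO z), ¬ W ∣ c
  · obtain ⟨S, hS, S', hS', hS0, hS0', hrel⟩ := All.avo 4 Qb _ hne hcase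
    have hrel' : IsRelPrime (aeval (Lm p a) S) (aeval (Lm p a) S') := by
      intro q hq1 hq2
      have h1 : aeval (Lp p a) q ∣ S := by
        have := map_dvd (aeval (Lp p a) : Po 4 Qb →ₐ[Qb] Po 4 Qb) hq1
        rwa [Lp_Lm] at this
      have h2 : aeval (Lp p a) q ∣ S' := by
        have := map_dvd (aeval (Lp p a) : Po 4 Qb →ₐ[Qb] Po 4 Qb) hq2
        rwa [Lp_Lm] at this
      have h3 := (hrel h1 h2).map (aeval (Lm p a) : Po 4 Qb →ₐ[Qb] Po 4 Qb)
      rwa [Lm_Lp] at h3
    have hprime := prime_conj hconjT (All.prm 4 p H z hp)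
    have hstar := star_conj hconjT (fun q hq => star hprim hI hq)
    have htot := tot_conj hconjT (z := cO z) (Δ := Δ)
      (fun w hw hΔ q hq => tot hprim hI hw hΔ hq)
    have hΔT : aeval (Lm p a) Δ ∉ van (it F k) (lam p a (cO z)) := by
      rw [mem_vanT hconjT, Lp_Lm]
      intro h0
      exact hzΔ (h0 0)
    have hhom : ∀ q ∈ van (it F k) (lam p a (cO z)), ∀ m,
        homogeneousComponent m q ∈ van (it F k) (lam p a (cO z)) :=
      fun q hq m => cone hD hT hprime hstar hΔT htot hq m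
    have hlin : ∀ i, (Lp p a i).totalDegree ≤ 1 := by
      intro i
      refine (totalDegree_add _ _).trans (max_le ?_ ?_)
      · rw [totalDegree_C]
        exact Nat.zero_le _
      · refine (totalDegree_mul _ _).trans ?_
        rw [totalDegree_C, totalDegree_X]
    obtain ⟨Φ', Δ', R', hprim', hΦ', hΔ'⟩ := prc' 4 Qb (it F k) (flQ p H) (Lp p a)
      (Lm p a) θ Φ Δ R (comp_Lm_Lp p a) (comp_Lp_Lm p a) (comp_conj hconjT) hlin hprim
    have hΦ'' : 2 * d ^ k ≤ Φ'.natDegree := by
      by_contra hlt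
      exact hpre1 (pre_one hPC1 F (by omega) hF hinjF hk _ Φ' Δ' R' hprim' (by omega))
    have hΔ'' : Δ' ∉ van (it F k) (lam p a (cO z)) := by
      intro h0
      have h1 := h0 0
      rw [Function.iterate_zero, id, ← pmap_Lp, hΔ'] at h1
      exact hzΔ h1
    have hind : ∀ (n : ℕ), n = Φ.natDegree → ∀ g : Fin n → Po 4 Qb,
        (∑ i : Fin n, (aeval (Lm p a) θ) ^ (i : ℕ) * aeval (it F k) (g i)) ∈
          van (it F k) (lam p a (cO z)) → ∀ i, g i ∈ van (it F k) (lam p a (cO z)) := by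
      rintro n rfl g hg i
      rw [mem_vanT hconjT] at hg ⊢
      have h1 : aeval (Lp p a) (∑ i : Fin Φ.natDegree, (aeval (Lm p a) θ) ^ (i : ℕ) *
          aeval (it F k) (g i)) = ∑ i : Fin Φ.natDegree, θ ^ (i : ℕ) *
            aeval (flQ p H) (aeval (Lp p a) (g i)) := by
        rw [map_sum]
        apply Finset.sum_congr rfl
        intro i _
        rw [map_mul, map_pow, Lp_Lm, aeval_conj hconjT]
      rw [h1] at hg
      exact hI (fun i => aeval (Lp p a) (g i)) hg i
    have hX0 : X 0 ∉ van (it F k) (lam p a (cO z)) := by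
      intro h0
      have h1 := h0 0
      rw [Function.iterate_zero, id, eval_X] at h1
      exact (havz z 0).2.1 h1
    obtain ⟨n, hn, hV⟩ := hLGV (van (it F k) (lam p a (cO z))) (it F k) (d ^ k)
      (aeval (Lm p a) θ) Φ' Δ' R' (aeval (Lm p a) S) (aeval (Lm p a) S') hprime (by omega) hT
      hhom hX0 (fun q => ⟨hstar q, fun hq => van_aeval hq⟩) hprim' hΔ'' hΦ''
      (hind _ hΦ') (by rw [mem_vanT hconjT, Lp_Lm]; exact hS)
      (by rw [mem_vanT hconjT, Lp_Lm]; exact hS') (Lm_ne p a hS0) (Lm_ne p a hS0') hrel'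
    obtain ⟨cV', hcV''⟩ := hV K F' hKT (by
      intro τ' q hq l
      have h1 : (pmap (it F k))^[l] (lam p a (cO z)) = (pmap F)^[k * l] x := by
        rw [pmap_it_iterate]
      have h2 := hq l
      rw [h1] at h2 ⊢
      have h3 : (fun i => τ' ((pmap F)^[k * l] x i)) = (pmap F)^[k * l] x :=
        funext fun i => τ'.commutes ⟨_, hKorb _ i⟩
      have h4 := congrArg τ' h2
      rw [map_zero] at h4
      rw [← h3, ← h4]
      have h5 := eval₂_comp_left ((τ' : Qb ≃+* Qb) : Qb →+* Qb) (RingHom.id Qb)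
        ((pmap F)^[k * l] x) q
      rw [RingHom.comp_id] at h5
      rw [eval_map]
      exact h5.symm)
    -- the backward orbit
    choose nx hnx using hPRH 4 p H
    obtain ⟨zz, hzz0, hzz1, hzz⟩ : ∃ zz : ℕ → Fin 4 → O p, zz 0 = z ∧ zz 1 = Q₁ ∧
        ∀ i, pmap (fl p H) (zz (i + 1)) = zz i := by
      refine ⟨fun i => Nat.rec z (fun i u => if i = 0 then Q₁ else nx u) i, rfl, rfl, ?_⟩
      intro i
      rcases Nat.eq_zero_or_pos i with rfl | hi
      · exact hQ₁
      · change pmap (fl p H) (if i = 0 then Q₁ else nx _) = _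
        rw [if_neg (by omega)]
        exact hnx _
    set XX : ℕ → Fin 4 → Qb := fun i => lam p a (cO (zz i)) with hXX
    have hX1 : ∀ i, (pmap F)^[k] (XX (i + 1)) = XX i := by
      intro i
      rw [hXX]
      simp only
      rw [hconj]
      congr 1
      rw [← hzz i]
      exact pmap_cO (fl p H) (zz (i + 1))
    have hXl : ∀ l i, (pmap F)^[k * l] (XX (i + l)) = XX i := by
      intro l
      induction l with
      | zero => exact fun i => rfl
      | succ l ih =>
        intro i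
        rw [Nat.mul_succ, Function.iterate_add_apply, show i + (l + 1) = (i + l) + 1 by omega,
          hX1, ih]
    have hXV : ∀ i, ∀ q ∈ van (it F k) (lam p a (cO z)), eval (XX i) q = 0 := by
      intro i q hq
      rw [mem_vanT hconjT, ← hzz0] at hq
      have h1 := van_back hPRV p hp H zz hzz i _ hq 0
      rw [Function.iterate_zero, id, Pool.Agent.H18.HIT.eval_aeval, pmap_Lp] at h1
      exact h1
    have hX0x : XX 0 = x := by
      rw [hXX]
      simp only
      rw [hzz0]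
    -- the length of the orbit
    obtain ⟨M, hM1, hM2⟩ : ∃ M : ℝ, F'.ht (aff x) ≤ M ∧ cV' ≤ M :=
      ⟨max _ _, le_max_left _ _, le_max_right _ _⟩
    obtain ⟨j₀, hj₀⟩ := pow_unbounded_of_one_lt M (show 1 < κ / 2 by linarith)
    obtain ⟨N, hN⟩ : ∃ N : ℕ, N = n * (j₀ + 1) := ⟨_, rfl⟩
    obtain ⟨J, hJ⟩ : ∃ J : ℕ, J = k₀ * N := ⟨_, rfl⟩
    have hN1 : j₀ + 1 ≤ N := by
      rw [hN]
      exact Nat.le_mul_of_pos_left _ hn
    have hJ1 : j₀ + 1 ≤ J := by
      rw [hJ]
      exact hN1.trans (Nat.le_mul_of_pos_left _ hk₀)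
    have hmJ : m * J = k * N := by
      rw [hJ, hkdef]
      ring
    obtain ⟨Γ, L, hL, hΓ⟩ := hGAL K (Finset.univ.image (XX N))
    have hΓ0 : (0 : ℝ) < Γ.card := by
      exact_mod_cast hΓ.ne.card_pos
    have hXNL : ∀ i, XX N i ∈ L := fun i =>
      hL _ (Finset.mem_image_of_mem _ (Finset.mem_univ i))
    have hXL : ∀ l, l ≤ N → ∀ i, XX l i ∈ L := by
      intro l hl i
      have h1 := hXl (N - l) l
      rw [show l + (N - l) = N by omega] at h1
      rw [← h1]
      exact orbit_memL F hKF (XX N) hXNL _ i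
    -- the points of the backward orbit
    set W : ℕ → Fin 4 → Qb := fun j => (pmap F)^[k * N - m * j] (XX N) with hW
    have hW1 : ∀ j l, l + j ≤ J → (pmap F)^[m * l] (W (l + j)) = W j := by
      intro j l hjl
      rw [hW]
      simp only
      rw [← Function.iterate_add_apply]
      congr 1
      have h1 : m * (l + j) ≤ k * N := by
        rw [← hmJ]
        exact Nat.mul_le_mul_left m hjl
      rw [Nat.mul_add] at h1 ⊢
      omega
    have hWL : ∀ j i, W j i ∈ L := fun j i => orbit_memL F hKF (XX N) hXNL _ i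
    have hWgood : ∀ j n, (pmap F)^[n] (W j) 0 ≠ 0 ∧ eval ((pmap F)^[n] (W j)) b₁ ≠ 0 := by
      intro j n
      rw [hW]
      simp only
      rw [← Function.iterate_add_apply]
      exact (havz (zz N) _).2
    have hWred : ∀ l j, l + j ≤ J → av F' Γ (pmap (G (m * l)) (W (l + j))) = av F' Γ (W j) := by
      intro l j hjl
      obtain ⟨h, hh⟩ := hfac (m * l)
      have h1 : W j = fun i => eval (W (l + j)) h * pmap (G (m * l)) (W (l + j)) i := by
        rw [← hW1 j l hjl, ← pmap_it]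
        funext i
        rw [pmap, hh i, map_mul]
        rfl
      have h2 : eval (W (l + j)) h ≠ 0 := by
        intro h0
        apply (hWgood j 0).1
        rw [Function.iterate_zero, id, h1]
        simp only
        rw [h0, zero_mul]
      conv_rhs => rw [h1]
      rw [av_smul F' Γ h2]
    have hW0 : W 0 = x := by
      rw [hW]
      simp only
      have h1 := hXl N 0
      rw [Nat.zero_add] at h1
      rw [Nat.mul_zero, Nat.sub_zero, h1, hX0x]
    have hWJ : W J = XX N := by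
      rw [hW]
      simp only
      rw [hmJ, Nat.sub_self]
      rfl
    have hWu : W 1 = (pmap F)^[k - m] (XX 1) := by
      rw [hW]
      simp only
      have h1 := hXl (N - 1) 1
      rw [show 1 + (N - 1) = N by omega] at h1
      rw [← h1, ← Function.iterate_add_apply]
      congr 1
      have h2 : k * N = k * (N - 1) + k := by
        conv_lhs => rw [show N = (N - 1) + 1 by omega]
        ring
      rw [Nat.mul_one]
      omega
    -- the first step
    have hfirst : (Γ.card : ℝ) * (Y' * A - cA) ≤ E * (av F' Γ (W 1) + Γ.card * cs) := by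
      have hu0 : W 1 0 ≠ 0 := (hWgood 1 0).1
      have hFm : pmap (it F m) (W 1) = x := by
        rw [pmap_it]
        have h1 := hW1 0 1 (by omega)
        rw [Nat.mul_one] at h1
        rw [← hW0]
        exact h1
      have hxG : x = fun i => eval (W 1) hm' * pmap (G m) (W 1) i := by
        rw [← hFm]
        funext i
        rw [pmap, hhm' i, map_mul]
        rfl
      have hxs : pmap (G m) (W 1) = fun i =>
          W 1 0 ^ a' m * pmap (G m) (Fin.cons 1 (aff (W 1))) i := by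
        funext i
        rw [pmap, pmap, ← eval_smul (hdata.hom m i)]
        congr 2
        exact cons_aff hu0
      have hx0 : x 0 ≠ 0 := (havz z 0).2.1
      have hG0 : pmap (G m) (W 1) 0 ≠ 0 := by
        intro h0
        apply hx0
        rw [hxG]
        simp only
        rw [h0, mul_zero]
      have hdh0 : eval (aff (W 1)) (dh (G m 0)) ≠ 0 := by
        intro h0
        apply hG0
        rw [pmap, eval_aff (hdata.hom m 0) hu0, h0, mul_zero]
      have hev : ∀ j, eval x (P j) = (eval (W 1) hm' * W 1 0 ^ a' m) ^ Y' *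
          eval (pmap (G m) (Fin.cons 1 (aff (W 1)))) (P j) := by
        intro j
        rw [← eval_smul (hPhom j)]
        congr 2
        rw [hxG, hxs]
        funext i
        ring
      apply root_avg hEQD F' hΓ hE (fun j => eval x (P j)) hxP
        (fun j => eval_mem (P j) x (hKP j) hxK) s hKs (W 1) (hWL 1)
      · simp only [hev]
        have h1 := hroot (aff (W 1)) hdh0
        rw [← mul_zero ((eval (W 1) hm' * W 1 0 ^ a' m) ^ Y'), ← h1, Finset.mul_sum]
        apply Finset.sum_congr rfl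
        intro j _
        ring
      · intro r hr
        obtain ⟨w', hw'1, hw'2, hw'3⟩ := hlift x hxχ r hr
        obtain ⟨P', hP'1, hP'2⟩ := hcL' x hxL w' hw'1 hw'2
        have h1 : pmap (flQ p H) (pmap (Lm p a) P') = cO z := by
          have h2 : lam p a (pmap (flQ p H) (pmap (Lm p a) P')) = lam p a (cO z) := by
            rw [← hconj, lam_Lm, hP'1]
          have h3 := congrArg (pmap (Lm p a)) h2
          rwa [Lm_lam, Lm_lam] at h3
        obtain ⟨σ, -, -, hσ⟩ := hgal _ h1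
        refine ⟨σ, ?_⟩
        have h4 : (fun i => σ (XX 1 i)) = P' := by
          have h5 : P' = lam p a (pmap (Lm p a) P') := (lam_Lm p a P').symm
          rw [h5, hXX]
          funext i
          simp only [lam, hzz1]
          rw [map_add, map_mul, hσ i]
          have h6 : σ (a i : Qb) = a i := σ.commutes ⟨_, hKa i⟩
          have h7 : σ (((p : ℕ) : Qb) ^ 2) = ((p : ℕ) : Qb) ^ 2 := by
            rw [map_pow, map_natCast]
          rw [h6, h7]
        have h8 : (fun i => σ (W 1 i)) = (pmap F)^[k - m] P' := by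
          rw [hWu, map_orbit σ F hKF, h4]
        rw [← hw'3, ← hP'2, ← h8]
        unfold lc
        rw [map_sum]
        apply Finset.sum_congr rfl
        intro i _
        rw [smul_eq_mul, smul_eq_mul, map_mul]
        have h9 : σ (s i) = s i := σ.commutes ⟨s i, hKs i⟩
        have h10 : σ (aff (W 1) i) = aff (fun i => σ (W 1 i)) i := map_div₀ σ _ _
        rw [h9, h10]
      · intro S hS
        apply hcA t ht0
        · rw [eval_ln]
          have h1 := hxP
          rw [hxe] at h1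
          exact h1
        · simp only [eval_ln]
          rw [hxe] at hS
          exact hS
      · exact hcs
    -- the heights of the backward orbit
    obtain ⟨u, hu⟩ : ∃ u : ℕ → ℝ, u = fun j => av F' Γ (W j) / Γ.card := ⟨_, rfl⟩
    have hgr := growB u J (κ := κ) (β := β) (ρ := ρ) (c₀ := c₀) (A := A) (B := |cB|)
      (C := cA / E + cs) hκ hβ hβκ hβρ hρ (abs_nonneg _)
      (by
        intro j hj
        have h1 := hc₀ Γ L hΓ (W (j + 2)) (hWL _) (hWgood (j + 2) 0).2
        have h2 := hWred 1 (j + 1) (by omega)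
        have h3 := hWred 2 j (by omega)
        rw [Nat.mul_one, show 1 + (j + 1) = j + 2 by omega] at h2
        rw [show m * 2 = m + m by ring, show 2 + j = j + 2 by omega] at h3
        rw [h2, h3] at h1
        rw [hu]
        simp only
        rw [← sub_nonneg] at h1 ⊢
        have h4 : av F' Γ (W (j + 2)) / Γ.card + β * (av F' Γ (W j) / Γ.card) + c₀ -
            κ * (av F' Γ (W (j + 1)) / Γ.card) = (av F' Γ (W (j + 2)) +
              β * av F' Γ (W j) + Γ.card * c₀ - κ * av F' Γ (W (j + 1))) / Γ.card := by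
          exact frac1 _ _ _ _ _ _ hΓ0
        rw [h4]
        exact div_nonneg h1 hΓ0.le)
      (by
        rw [hu]
        simp only
        rw [hW0, av_mem F' hxK, mul_div_cancel_left₀ _ hΓ0.ne']
        have h1 := hcB t ht0 (by
          have h2 : x 0 ≠ 0 := (havz z 0).2.1
          rw [hxe] at h2
          rw [eval_X]
          exact h2)
        rw [← hxe, pmap_X, Nat.cast_one, one_mul] at h1
        have h3 := (abs_le.mp h1).2
        have h4 := le_abs_self cB
        linarith)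
      (by
        rw [hu]
        simp only
        have hE0 : (0 : ℝ) < E := by exact_mod_cast hE
        have h1 : (Γ.card : ℝ) * (E * ρ * A - cA) ≤ Γ.card * (Y' * A - cA) := by
          apply mul_le_mul_of_nonneg_left _ hΓ0.le
          have h2 := mul_le_mul_of_nonneg_right hEY hA0
          linarith
        have h2 := h1.trans hfirst
        rw [le_div_iff₀ hΓ0]
        have h3 : (ρ * A - (cA / E + cs)) * Γ.card * E =
            Γ.card * (E * ρ * A - cA) - E * (Γ.card * cs) := by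
          exact frac2 _ _ _ _ _ hE0
        have h4 : (ρ * A - (cA / E + cs)) * Γ.card * E ≤ av F' Γ (W 1) * E := by
          rw [h3]
          linarith
        exact le_of_mul_le_mul_right h4 hE0)
      hA0 hA1 hA2 (J - 1) (by omega)
    obtain ⟨-, -, hbig, -⟩ := hgr
    rw [show J - 1 + 1 = J by omega] at hbig
    -- bounded heights
    have hbd : av F' Γ (XX N) / Γ.card ≤ M := by
      have h1 := bounded_of_rec (fun i => av F' Γ (XX (n * i)) / Γ.card) (j₀ + 1) (c := cV')
        (M := M) (by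
          intro i hi
          have h2 : n * (i + 1) ≤ N := by
            rw [hN]
            exact Nat.mul_le_mul_left n (by omega)
          have h3 : (pmap (it F k))^[n] (XX (n * (i + 1))) = XX (n * i) := by
            rw [pmap_it_iterate, Nat.mul_succ]
            exact hXl n (n * i)
          have h4 := hcV'' Γ L hΓ (XX (n * (i + 1))) (hXL _ h2) (hXV _)
            (havz (zz (n * (i + 1))) 0).2.1 (by
              rw [h3]
              exact (havz (zz (n * i)) 0).2.1)
          rw [h3] at h4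
          rw [← sub_nonneg] at h4 ⊢
          have h5 : av F' Γ (XX (n * i)) / Γ.card + cV' -
              2 * (av F' Γ (XX (n * (i + 1))) / Γ.card) = (av F' Γ (XX (n * i)) +
                Γ.card * cV' - 2 * av F' Γ (XX (n * (i + 1)))) / Γ.card := by
            exact frac3 _ _ _ hΓ0
          rw [h5]
          exact div_nonneg h4 hΓ0.le)
        (by
          rw [Nat.mul_zero, hX0x, av_mem F' hxK, mul_div_cancel_left₀ _ hΓ0.ne']
          exact hM1) hM2 (j₀ + 1) le_rfl
      rw [← hN] at h1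
      exact h1
    rw [hu] at hbig
    simp only at hbig
    rw [hWJ] at hbig
    have h1 : (κ / 2) ^ j₀ ≤ (κ / 2) ^ (J - 1) := pow_le_pow_right₀ (by linarith) (by omega)
    linarith
  · push Not at hcase
    obtain ⟨W, hW, hdvd⟩ := hcase
    have hprime := All.prm 4 p H z hp
    obtain ⟨Y, hY, hYp⟩ := hprime.exists_mem_prime_of_ne_bot hne
    have hWI : W ∈ van (flQ p H) (cO z) := by
      have h1 : Associated W Y := hW.associated_of_dvd hYp.irreducible (hdvd Y hY)
      obtain ⟨u, hu⟩ := h1.symm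
      rw [← hu]
      exact Ideal.mul_mem_right _ _ hY
    have hiff : ∀ c : Po 4 Qb, c ∈ van (flQ p H) (cO z) ↔ W ∣ c := by
      intro c
      refine ⟨hdvd c, ?_⟩
      rintro ⟨d, rfl⟩
      exact Ideal.mul_mem_right _ _ hWI
    obtain ⟨Z, hZ⟩ := hdvd _ (van_aeval hWI)
    have hWz : eval (cO z) W = 0 := hWI 0
    have hall : ∀ Y : Po 4 Qb, Irreducible Y → Y ∣ Z → Y ∣ aeval (flQ p H) c₁ := by
      intro Y hY hYZ
      by_contra hnd
      obtain ⟨P', hP'Y, hP'⟩ := All.lyo 4 Qb (flQ p H) c₁ W Y (cO z) hinj hint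
        (left_ne_zero_of_mul (left_ne_zero_of_mul hz)) hW hWz hY (hZ ▸ hYZ.mul_left W) hnd
      obtain ⟨σ, hσ1, hσ2, hσ3⟩ := hgal P' hP'
      have hjac := eval_sigma_jac (σ := (σ : Qb ≃+* Qb)) hσ1 hσ3 (jac_fl_ne p H Q₁)
      have hW' := eval_sigma_van (σ := (σ : Qb ≃+* Qb)) hσ1 hσ2 hσ3 hPvan hWI
      apply All.hyp 4 Qb (flQ p H) W Z (cO z)
        (fun n => by rw [flQ_iterate]; exact jac_fl_ne p H _) hW hiff hZ P' hP' hjac hW'
      obtain ⟨d, hd⟩ := hYZ
      rw [hd, map_mul, hP'Y, zero_mul]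
    obtain ⟨d, hd⟩ := hcan W Z hW hZ hall
    apply right_ne_zero_of_mul (left_ne_zero_of_mul hz)
    rw [hd, map_mul, hWz, zero_mul]

end Pool.Agent.H18.BKH
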