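import Pool.Agent.H18.BKH.First

/-!
# Backward heights: lemmas for the core
-/

set_option autoImplicit false

open MvPolynomial
open Pool.Agent.H12.ZD (pmap v O Res DenseOrbit NoInv)
open Pool.Agent.H18.HIT Pool.Agent.H8.HIT
open Pool.Agent.H8.ZA (HFam Const NA sz)
open Pool.Agent.H8.TD
open Pool.Agent.H8.P2 (Lp Lm pmap_Lp Lp_ne Lm_ne Lp_Lm Lm_Lp comp_Lm_Lp comp_Lp_Lm comp_conj
  mem_vanT prime_conj star_conj tot_conj star tot cone iter_conj aeval_conj)
open Pool.Agent.H18.TE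

namespace Pool.Agent.H18.BKH

variable {K : IntermediateField ℚ Qb}

theorem orbit_memL {L : IntermediateField K Qb} {N : ℕ} (F : Tup N Qb)
    (hF : ∀ i, ∀ c ∈ (F i).coeffs, c ∈ K) (x : Fin N → Qb) (hx : ∀ i, x i ∈ L) (n : ℕ)
    (i : Fin N) : (pmap F)^[n] x i ∈ L := by
  induction n generalizing i with
  | zero => exact hx i
  | succ n ih =>
    rw [Function.iterate_succ_apply']
    exact eval_memL (F i) (hF i) _ ih

theorem map_orbit {N : ℕ} (σ : Qb ≃ₐ[K] Qb) (F : Tup N Qb)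
    (hF : ∀ i, ∀ c ∈ (F i).coeffs, c ∈ K) (x : Fin N → Qb) (n : ℕ) :
    (fun i => σ ((pmap F)^[n] x i)) = (pmap F)^[n] fun i => σ (x i) := by
  induction n with
  | zero => rfl
  | succ n ih =>
    rw [Function.iterate_succ_apply', Function.iterate_succ_apply', ← ih, map_pmap σ F hF]

theorem av_smul (F : HFam K) (Γ : Finset (Qb ≃ₐ[K] Qb)) {c : Qb} (hc : c ≠ 0)
    (u : Fin 4 → Qb) : av F Γ (fun i => c * u i) = av F Γ u := by
  unfold av
  apply Finset.sum_congr rfl
  intro σ _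
  congr 1
  have h1 : (fun i => σ (c * u i)) = fun i => σ c * σ (u i) := funext fun i => map_mul σ _ _
  rw [h1]
  exact aff_smul ((map_ne_zero σ).2 hc) _

theorem cons_aff {u : Fin 4 → Qb} (hu : u 0 ≠ 0) :
    u = fun i => u 0 * (Fin.cons 1 (aff u) : Fin 4 → Qb) i := by
  funext i
  refine Fin.cases ?_ (fun j => ?_) i
  · rw [Fin.cons_zero, mul_one]
  · rw [Fin.cons_succ, aff, mul_div_cancel₀ _ hu]

/-- the backward orbit stays in the closure of the forward orbit -/
theorem van_back (hPRV : T_PRV) {N : ℕ} (p : Nat.Primes) (hp : 3 ≤ (p : ℕ)) (H : Tup N (O p))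
    (zz : ℕ → Fin N → O p) (hzz : ∀ i, pmap (fl p H) (zz (i + 1)) = zz i) (i : ℕ) :
    ∀ q ∈ van (flQ p H) (cO (zz 0)), q ∈ van (flQ p H) (cO (zz i)) := by
  induction i with
  | zero => exact fun q hq => hq
  | succ i ih =>
    intro q hq
    have h1 := ih q hq
    have h2 := hPRV N p H (zz i) (zz (i + 1)) hp (hzz i) q h1
    intro n
    cases n with
    | zero => exact h2
    | succ n =>
      have h3 : pmap (flQ p H) (cO (zz (i + 1))) = cO (zz i) := by
        rw [← hzz i]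
        exact pmap_cO (fl p H) (zz (i + 1))
      rw [Function.iterate_succ_apply, h3]
      exact h1 n

theorem conj_iter {N : ℕ} (F G : Tup N Qb) (p : Nat.Primes) (a : Fin N → O p) (k : ℕ)
    (h : ∀ z, (pmap F)^[k] (lam p a z) = lam p a (pmap G z)) (m : ℕ) (z : Fin N → Qb) :
    (pmap F)^[k * m] (lam p a z) = lam p a ((pmap G)^[m] z) := by
  induction m generalizing z with
  | zero => rfl
  | succ m ih =>
    rw [Nat.mul_succ, Function.iterate_add_apply, h, ih, Function.iterate_succ_apply]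

/-- the preimages under an iterate and under the map -/
theorem pre_one (hPC1 : T_PC1) (F : Tup 4 Qb) {d : ℕ} (hd : 1 ≤ d)
    (hF : ∀ i, (F i).IsHomogeneous d)
    (hinjF : Function.Injective (aeval F : Po 4 Qb →ₐ[Qb] Po 4 Qb))
    {k : ℕ} (hk : 1 ≤ k) (θ : Po 4 Qb) (Φ : Polynomial (Po 4 Qb)) (Δ : Po 4 Qb)
    (R : Fin 4 → Polynomial (Po 4 Qb)) (hprim : Prim (it F k) θ Φ Δ R)
    (hlt : Φ.natDegree < 2 * d ^ k) :
    ∃ c : Po 4 Qb, c ≠ 0 ∧ ∀ y : Fin 4 → Qb, eval y c ≠ 0 → ∀ S : Finset (Fin 4 → Qb),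
      (∀ x ∈ S, pmap F x = y) → (∀ x ∈ S, ∀ x' ∈ S, ∀ t : Qb, (∀ i, x' i = t * x i) → x' = x) →
      S.card ≤ 1 := by
  obtain ⟨c, hc, h1⟩ := hPC1 4 Qb (it F k) (d ^ k) θ Φ Δ R (by norm_num)
    (Nat.one_le_pow _ _ hd) (it_hom hF k) hprim hlt
  refine ⟨aeval (it F (k - 1)) c, ?_, fun y hy S hS hS' => ?_⟩
  · intro h0
    apply hc
    have h2 := aeval_it_injective (f := F) hinjF (k - 1)
    apply h2
    rw [h0, map_zero]
  · rw [Pool.Agent.H18.HIT.eval_aeval, pmap_it] at hy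
    apply h1 ((pmap F)^[k - 1] y) hy S _ hS'
    intro x hx
    rw [pmap_it]
    obtain ⟨k', rfl⟩ : ∃ k', k = k' + 1 := ⟨k - 1, by omega⟩
    rw [Function.iterate_succ_apply, hS x hx, Nat.add_sub_cancel]

/-- the reduced lift has the smallest degree -/
theorem red_min {F' G G' : Tup 4 Qb} {h h' : Po 4 Qb} {D a a' : ℕ}
    (hF' : ∀ i, (F' i).IsHomogeneous D) (hne : ∃ i, F' i ≠ 0)
    (hG : ∀ i, (G i).IsHomogeneous a) (hG' : ∀ i, (G' i).IsHomogeneous a') (hcop : Cop G)
    (hh : ∀ i, F' i = h * G i) (hh' : ∀ i, F' i = h' * G' i) : a ≤ a' := by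
  obtain ⟨i, hi⟩ := hne
  have hh0 : h ≠ 0 := by
    rintro rfl
    rw [hh i, zero_mul] at hi
    exact hi rfl
  have hh0' : h' ≠ 0 := by
    rintro rfl
    rw [hh' i, zero_mul] at hi
    exact hi rfl
  have hdvd : ∀ (x : Po 4 Qb), x ≠ 0 → ∀ (u : Po 4 Qb) (V : Tup 4 Qb),
      (∀ i, x * V i = u * G i) → x ∣ u := by
    intro x
    induction x using WfDvdMonoid.induction_on_irreducible with
    | zero => exact fun h0 => absurd rfl h0
    | unit x hx => exact fun _ u _ _ => hx.dvd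
    | mul x P hx hP ih =>
      intro hPx u V hV
      have h1 : P ∣ u := by
        obtain ⟨j, hj⟩ := hcop P hP
        have h2 : P ∣ u * G j := by
          rw [← hV j]
          exact (dvd_mul_right P x).mul_right _
        exact (hP.prime.dvd_or_dvd h2).resolve_right hj
      obtain ⟨u', rfl⟩ := h1
      apply mul_dvd_mul_left
      apply ih hx u' V
      intro i
      apply mul_left_cancel₀ hP.ne_zero
      rw [← mul_assoc, hV i, mul_assoc]
  obtain ⟨q, hq⟩ := hdvd h' hh0' h G' (fun i => by rw [← hh', ← hh])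
  have h3 : G' i = q * G i := by
    apply mul_left_cancel₀ hh0'
    rw [← hh', hh i, hq, mul_assoc]
  have hGi : G i ≠ 0 := fun h0 => hi (by rw [hh, h0, mul_zero])
  have hG'i : G' i ≠ 0 := fun h0 => hi (by rw [hh', h0, mul_zero])
  have hq0 : q ≠ 0 := fun h0 => hG'i (by rw [h3, h0, zero_mul])
  have h4 := (hG' i).totalDegree hG'i
  have h5 := (hG i).totalDegree hGi
  rw [h3, totalDegree_mul_of_isDomain hq0 hGi, h5] at h4
  omega

end Pool.Agent.H18.BKH
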