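import Pool.Agent.H18.BKH.All
import Pool.Agent.H8.TD.Fin

/-!
# Zariski dense orbits in dimension three: the second dynamical degree
-/

set_option autoImplicit false

open MvPolynomial
open Pool.Agent.H12.ZD (pmap v O Res DenseOrbit NoInv)
open Pool.Agent.H18.HIT Pool.Agent.H8.HIT
open Pool.Agent.H8.TD Pool.Agent.H18.TE

namespace Pool.Agent.H18.BKH

/-- the coordinates of the `n`-th iterate in affine coordinates -/
noncomputable def phF (F : Tup 4 Qb) (n : ℕ) : Fin 3 → K3 Qb :=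
  fun i => qt (it F n i.succ) (it F n 0)

theorem ph_eq_phF {F : Tup 4 Qb} {d : ℕ} (hd : 1 ≤ d) (hF : ∀ i, (F i).IsHomogeneous d)
    (hinjF : Function.Injective (aeval F : Po 4 Qb →ₐ[Qb] Po 4 Qb))
    {τ : K3 Qb →ₐ[Qb] K3 Qb} {G : ℕ → Tup 4 Qb} {a' : ℕ → ℕ} {e : ℕ} (hdata : Data τ G a' e)
    (hfac : ∀ n, ∃ h : Po 4 Qb, ∀ i, it F n i = h * G n i) (n : ℕ) : ph τ n = phF F n := by
  obtain ⟨τ', hτ'⟩ := Pool.Agent.H8.TD.Al.tau Qb F d hd hF hinjF
  obtain ⟨h, hh⟩ := hfac n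
  have h1 := (hτ' n).1
  rw [hh 0, map_mul] at h1
  have hdh : dh h ≠ 0 := left_ne_zero_of_mul h1
  funext i
  rw [hdata.eq, phF, hh, hh, qt, qt, map_mul, map_mul, map_mul, map_mul,
    mul_div_mul_left _ _ (algK_ne hdh)]

/-- homogeneous lifts: the case of growth of the second degrees -/
theorem core2nd (F : Tup 4 Qb) {d : ℕ} (hd : 2 ≤ d) (hF : ∀ i, (F i).IsHomogeneous d)
    (hinjF : Function.Injective (aeval F : Po 4 Qb →ₐ[Qb] Po 4 Qb)) (hinv : NoInv F) (e : ℕ)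
    (he : 1 ≤ e)
    (hpre : ∃ c : Po 4 Qb, c ≠ 0 ∧ ∀ y : Fin 4 → Qb, eval y c ≠ 0 →
      ∀ S : Finset (Fin 4 → Qb), (∀ x ∈ S, pmap F x = y) →
      (∀ x ∈ S, ∀ x' ∈ S, ∀ t : Qb, (∀ i, x' i = t * x i) → x' = x) → S.card ≤ e)
    (c : ℝ) (hc : (e : ℝ) < c)
    (hgrow : ∀ N, ∃ n ≥ N, ∃ s s' s'' : Fin 3 → Qb,
      c ^ n ≤ (dg Qb {lc s (xx Qb), lc s' (phF F n), lc s'' (phF F n)} : ℝ))
    (b : Po 4 Qb) (hb : b ≠ 0) :
    ∃ x : Fin 4 → Qb, (∀ n : ℕ, eval ((pmap F)^[n] x) b ≠ 0) ∧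
      (∀ n : ℕ, (pmap F)^[n] x ≠ 0) ∧ DenseOrbit F x := by
  classical
  have he' : (1 : ℝ) ≤ e := by exact_mod_cast he
  have hne : ∀ n, ∃ i, it F n i ≠ 0 := by
    intro n
    by_contra hcon
    push Not at hcon
    obtain ⟨τ', hτ'⟩ := Pool.Agent.H8.TD.Al.tau Qb F d (by omega) hF hinjF
    apply (hτ' n).1
    rw [hcon 0, map_zero]
  have hmin : ∀ {e' : ℕ} {τ : K3 Qb →ₐ[Qb] K3 Qb} {G : ℕ → Tup 4 Qb} {a' : ℕ → ℕ},
      Data τ G a' e' → (∀ n, ∃ h : Po 4 Qb, ∀ i, it F n i = h * G n i) → ∀ (n : ℕ)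
      (G' : Tup 4 Qb) (h' : Po 4 Qb) (a : ℕ), (∀ i, it F n i = h' * G' i) →
      (∀ i, (G' i).IsHomogeneous a) → a' n ≤ a := by
    intro e' τ G a' hdata hfac n G' h' a hG' ha
    obtain ⟨h, hh⟩ := hfac n
    exact red_min (it_hom hF n) (hne n) (hdata.hom n) ha (hdata.cop n) hh hG'
  by_cases h1 : ∃ c : Po 4 Qb, c ≠ 0 ∧ ∀ y : Fin 4 → Qb, eval y c ≠ 0 →
      ∀ S : Finset (Fin 4 → Qb), (∀ x ∈ S, pmap F x = y) →
      (∀ x ∈ S, ∀ x' ∈ S, ∀ t : Qb, (∀ i, x' i = t * x i) → x' = x) → S.card ≤ 1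
  · -- topological degree one
    obtain ⟨τ, G, a', hdata, hfac⟩ := exists_data F (by omega) hF hinjF 1 h1
    have hc1 : (1 : ℝ) < c := lt_of_le_of_lt he' hc
    have hsq : Real.sqrt c ^ 2 = c := Real.sq_sqrt (by linarith)
    refine core3 F hd hF hinjF hinv 1 le_rfl h1 (Real.sqrt c) ?_ ?_ b hb
    · rw [Nat.cast_one]
      exact Real.lt_sqrt_of_sq_lt (by rw [one_pow]; exact hc1)
    · intro N
      obtain ⟨n, hn, s, s', s'', h2⟩ := hgrow N
      refine ⟨n, hn, fun G' h' a hG' ha => ?_⟩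
      have h3 : dg Qb {lc s (xx Qb), lc s' (phF F n), lc s'' (phF F n)} ≤ a' n * a' n := by
        rw [← ph_eq_phF (by omega) hF hinjF hdata hfac n]
        exact (hdata.b3 n n).rot.swap s s' s''
      have h4 := hmin hdata hfac n G' h' a hG' ha
      have h5 : (Real.sqrt c ^ n) ^ 2 ≤ (a : ℝ) ^ 2 := by
        rw [← pow_mul, Nat.mul_comm, pow_mul, hsq]
        calc c ^ n ≤ (dg Qb {lc s (xx Qb), lc s' (phF F n), lc s'' (phF F n)} : ℝ) := h2
          _ ≤ ((a' n * a' n : ℕ) : ℝ) := by exact_mod_cast h3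
          _ ≤ (a : ℝ) ^ 2 := by
            rw [sq]
            exact_mod_cast Nat.mul_le_mul h4 h4
      exact le_of_sq_le_sq h5 (by positivity)
  · obtain ⟨τ, G, a', hdata, hfac⟩ := exists_data F (by omega) hF hinjF e hpre
    by_cases h2 : ∃ c' : ℝ, (e : ℝ) < c' ∧ ∀ N, ∃ n ≥ N, c' ^ n ≤ (a' n : ℝ)
    · obtain ⟨c', hc', h2⟩ := h2
      refine core3 F hd hF hinjF hinv e he hpre c' hc' ?_ b hb
      intro N
      obtain ⟨n, hn, h3⟩ := h2 N
      refine ⟨n, hn, fun G' h' a hG' ha => h3.trans ?_⟩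
      exact_mod_cast hmin hdata hfac n G' h' a hG' ha
    · push Not at h2
      refine coreB Al.gr4 Al.fix Al.gal Al.eqd Al.hlc Al.hln Al.chr Al.lfx Al.prh Al.prv Al.pc1
        Al.lgv F hd hF hinjF hinv e he h1 hdata hfac c hc ?_ h2 b hb
      intro N
      obtain ⟨n, hn, s, s', s'', h3⟩ := hgrow N
      refine ⟨n, hn, s, s', s'', ?_⟩
      rw [ph_eq_phF (by omega) hF hinjF hdata hfac n]
      exact h3

/-- **rational self-maps of `ℙ^3`** whose topological degree is smaller than the first or the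
second dynamical degree -/
theorem n3B (F : Tup 4 Qb) (b : Po 4 Qb) (d : ℕ) (hd : 1 ≤ d)
    (hF : ∀ i, (F i).IsHomogeneous d)
    (hdom : ∀ (m : ℕ) (q : Po 4 Qb), q.IsHomogeneous m → aeval F q = 0 → q = 0)
    (hinv : ∀ (m : ℕ) (P Q : Po 4 Qb), P.IsHomogeneous m → Q.IsHomogeneous m → Q ≠ 0 →
      aeval F P * Q = aeval F Q * P → ∃ c : Qb, P = C c * Q) (e : ℕ) (he : 1 ≤ e)
    (hpre : ∃ c : Po 4 Qb, c ≠ 0 ∧ ∀ y : Fin 4 → Qb, eval y c ≠ 0 →
      ∀ S : Finset (Fin 4 → Qb), (∀ x ∈ S, pmap F x = y) →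
      (∀ x ∈ S, ∀ x' ∈ S, ∀ t : Qb, (∀ i, x' i = t * x i) → x' = x) → S.card ≤ e)
    (c : ℝ) (hc : (e : ℝ) < c)
    (hgrow : ∀ N, ∃ n ≥ N, ∃ s s' s'' : Fin 3 → Qb,
      c ^ n ≤ (dg Qb {lc s (xx Qb), lc s' (phF F n), lc s'' (phF F n)} : ℝ)) (hb0 : b ≠ 0) :
    ∃ x : Fin 4 → Qb, (∀ n : ℕ, eval ((pmap F)^[n] x) b ≠ 0) ∧
      (∀ n : ℕ, (pmap F)^[n] x ≠ 0) ∧ DenseOrbit F x := by
  have he' : (1 : ℝ) ≤ e := by exact_mod_cast he
  have hinjF := Pool.Agent.H8.P2.inj_of_hom hd hF hdom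
  have hd2 : 2 ≤ d := by
    by_contra hcon
    have hd1 : d = 1 := by omega
    obtain ⟨τ, G, a', hdata, hfac⟩ := exists_data F (by omega) hF hinjF e hpre
    obtain ⟨n, hn, s, s', s'', h2⟩ := hgrow 1
    have h3 : dg Qb {lc s (xx Qb), lc s' (phF F n), lc s'' (phF F n)} ≤ a' n * a' n := by
      rw [← ph_eq_phF (by omega) hF hinjF hdata hfac n]
      exact (hdata.b3 n n).rot.swap s s' s''
    have hne : ∃ i, it F n i ≠ 0 := by
      by_contra hcon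
      push Not at hcon
      obtain ⟨τ', hτ'⟩ := Pool.Agent.H8.TD.Al.tau Qb F d (by omega) hF hinjF
      apply (hτ' n).1
      rw [hcon 0, map_zero]
    obtain ⟨h, hh⟩ := hfac n
    have h4 : a' n ≤ d ^ n := red_min (it_hom hF n) hne (hdata.hom n) (it_hom hF n)
      (hdata.cop n) hh (h' := 1) (fun i => (one_mul _).symm)
    rw [hd1, one_pow] at h4
    have h5 : dg Qb {lc s (xx Qb), lc s' (phF F n), lc s'' (phF F n)} ≤ 1 :=
      h3.trans (Nat.mul_le_mul h4 h4)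
    have h6 : 1 < c ^ n := one_lt_pow₀ (by linarith) (by omega)
    have h7 : (dg Qb {lc s (xx Qb), lc s' (phF F n), lc s'' (phF F n)} : ℝ) ≤ 1 := by
      exact_mod_cast h5
    linarith
  exact core2nd F hd2 hF hinjF (All.pni 4 Qb F d hd2 hF hinjF hinv) e he hpre c hc hgrow b hb0

/-- polynomial self-maps of affine 3-space whose second dynamical degree is larger than the
topological degree -/
theorem n3affB (f : Tup 3 Qb) (b : Po 3 Qb)
    (hinj : Function.Injective (aeval f : Po 3 Qb →ₐ[Qb] Po 3 Qb)) (hinv : NoInv f) (e : ℕ)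
    (he : 1 ≤ e)
    (hpre : ∃ c : Po 3 Qb, c ≠ 0 ∧ ∀ y : Fin 3 → Qb, eval y c ≠ 0 →
      ∀ S : Finset (Fin 3 → Qb), (∀ x ∈ S, pmap f x = y) → S.card ≤ e)
    (c : ℝ) (hc : (e : ℝ) < c)
    (hgrow : ∀ N, ∃ n ≥ N, ∃ s s' s'' : Fin 3 → Qb,
      c ^ n ≤ (dg Qb {lc s (xx Qb), lc s' (fun i => algebraMap (Po 3 Qb) (K3 Qb) (it f n i)),
        lc s'' (fun i => algebraMap (Po 3 Qb) (K3 Qb) (it f n i))} : ℝ)) (hb : b ≠ 0) :
    ∃ x : Fin 3 → Qb, (∀ n : ℕ, eval ((pmap f)^[n] x) b ≠ 0) ∧ DenseOrbit f x := by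
  classical
  set d : ℕ := deg f + 1 with hd
  have hf : ∀ i, (f i).totalDegree ≤ d := fun i => (totalDegree_le_deg f i).trans (Nat.le_succ _)
  set F : Tup 4 Qb := hzt d f with hFdef
  have hF : ∀ i, (F i).IsHomogeneous d := hzt_hom hf
  have hdom : ∀ (m : ℕ) (q : Po 4 Qb), q.IsHomogeneous m → aeval F q = 0 → q = 0 := by
    intro m q hq h0
    by_contra hq0
    have h1 := dh_aeval hf q
    rw [← hFdef, h0, map_zero] at h1
    have h2 : dh q = 0 := by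
      apply hinj
      rw [map_zero]
      exact h1.symm
    exact dh_ne hq hq0 h2
  have hinv' : ∀ (m : ℕ) (P Q : Po 4 Qb), P.IsHomogeneous m → Q.IsHomogeneous m → Q ≠ 0 →
      aeval F P * Q = aeval F Q * P → ∃ c : Qb, P = C c * Q := by
    intro m P Q hP hQ hQ0 hPQ
    have hQ' : dh Q ≠ 0 := dh_ne hQ hQ0
    have h1 := congrArg (dh : Po 4 Qb →ₐ[Qb] Po 3 Qb) hPQ
    rw [map_mul, map_mul, hFdef, dh_aeval hf, dh_aeval hf] at h1
    by_contra hcon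
    push Not at hcon
    apply hinv
    refine ⟨dh P, dh Q, hQ', fun s hs => ?_, h1⟩
    have h2 : (P - C s * Q).IsHomogeneous m := by
      have h3 := (isHomogeneous_C (Fin 4) s).mul hQ
      rw [zero_add] at h3
      exact hP.sub h3
    have h4 : P - C s * Q = 0 := by
      by_contra h5
      apply dh_ne h2 h5
      have h6 : dh (C s : Po 4 Qb) = C s := AlgHom.commutes dh s
      rw [map_sub, map_mul, hs, h6, sub_self]
    exact hcon s (sub_eq_zero.mp h4)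
  have hpre' : ∃ c : Po 4 Qb, c ≠ 0 ∧ ∀ y : Fin 4 → Qb, eval y c ≠ 0 →
      ∀ S : Finset (Fin 4 → Qb), (∀ x ∈ S, pmap F x = y) →
      (∀ x ∈ S, ∀ x' ∈ S, ∀ t : Qb, (∀ i, x' i = t * x i) → x' = x) → S.card ≤ e := by
    obtain ⟨c', hc', hpre⟩ := hpre
    obtain ⟨P, D, hP, hPy⟩ := Pool.Agent.H8.TD.Al.hmg Qb c' hc'
    refine ⟨X 0 * P, mul_ne_zero (X_ne_zero 0) hP, fun y hy S hS hS' => ?_⟩
    rw [map_mul, eval_X] at hy
    have hy0 := left_ne_zero_of_mul hy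
    have hyP := right_ne_zero_of_mul hy
    rw [hPy y hy0] at hyP
    have hx0 : ∀ x ∈ S, x 0 ≠ 0 := by
      intro x hx h0
      have h1 := congrFun (hS x hx) 0
      rw [hFdef, pmap_hzt_zero, h0, zero_pow (by omega)] at h1
      exact hy0 h1.symm
    have hinjS : Set.InjOn (aff : (Fin 4 → Qb) → Fin 3 → Qb) (S : Set (Fin 4 → Qb)) := by
      intro x hx x' hx' h1
      apply Eq.symm
      apply hS' x hx x' hx' (x' 0 / x 0)
      intro i
      refine Fin.cases ?_ (fun j => ?_) i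
      · rw [div_mul_cancel₀ _ (hx0 x hx)]
      · have h2 := congrFun h1 j
        rw [aff, aff, div_eq_div_iff (hx0 x hx) (hx0 x' hx')] at h2
        rw [div_mul_eq_mul_div, eq_div_iff (hx0 x hx)]
        linear_combination -h2
    rw [← Finset.card_image_of_injOn hinjS]
    apply hpre (aff y) (right_ne_zero_of_mul hyP)
    intro w hw
    obtain ⟨x, hx, rfl⟩ := Finset.mem_image.1 hw
    rw [← aff_hzt hf (hx0 x hx), ← hFdef, hS x hx]
  have hgrow' : ∀ N, ∃ n ≥ N, ∃ s s' s'' : Fin 3 → Qb,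
      c ^ n ≤ (dg Qb {lc s (xx Qb), lc s' (phF F n), lc s'' (phF F n)} : ℝ) := by
    intro N
    obtain ⟨n, hn, s, s', s'', h⟩ := hgrow N
    refine ⟨n, hn, s, s', s'', ?_⟩
    obtain ⟨h1, h2⟩ := dh_it hf n
    rw [← hFdef] at h1 h2
    have h3 : phF F n = fun i => algebraMap (Po 3 Qb) (K3 Qb) (it f n i) := by
      funext i
      rw [phF, qt, h1, h2 i, map_one, div_one]
    rw [h3]
    exact h
  obtain ⟨P, D, hP, hPy⟩ := Pool.Agent.H8.TD.Al.hmg Qb b hb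
  obtain ⟨x, hx, hx0, hdense⟩ := n3B F (X 0 * P) d (by omega) hF hdom hinv' e he hpre' c hc
    hgrow' (mul_ne_zero (X_ne_zero 0) hP)
  have hxx0 : x 0 ≠ 0 := by
    have h1 := hx 0
    rw [map_mul, eval_X] at h1
    exact left_ne_zero_of_mul h1
  refine ⟨aff x, fun n => ?_, fun q hq => ?_⟩
  · have h1 := hx n
    rw [map_mul, eval_X] at h1
    have h2 := right_ne_zero_of_mul h1
    rw [hPy _ (left_ne_zero_of_mul h1), hFdef, (iter_hzt hf hxx0 n).2] at h2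
    exact right_ne_zero_of_mul h2
  · by_contra hq0
    obtain ⟨P', D', hP', hPy'⟩ := Pool.Agent.H8.TD.Al.hmg Qb q hq0
    apply hP'
    apply hdense
    intro n
    have h1 : (pmap F)^[n] x 0 ≠ 0 := by
      rw [hFdef, (iter_hzt hf hxx0 n).1]
      exact pow_ne_zero _ hxx0
    rw [hPy' _ h1, hFdef, (iter_hzt hf hxx0 n).2, hq n, mul_zero]

end Pool.Agent.H18.BKH
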