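import Pool.Agent.H18.BKH.Basic

/-!
# Backward heights: numbers
-/

set_option autoImplicit false

namespace Pool.Agent.H18.BKH

/-- growth from the backward recursion -/
theorem growB (h : ℕ → ℝ) (J : ℕ) {κ β ρ c₀ A B C : ℝ} (hκ : 2 < κ) (hβ : 0 ≤ β)
    (hβκ : 8 * β ≤ κ ^ 2) (hβρ : 8 * β ≤ κ * ρ) (hρ : 0 < ρ) (hB : 0 ≤ B)
    (hrec : ∀ j, j + 2 ≤ J → κ * h (j + 1) ≤ h (j + 2) + β * h j + c₀)
    (h0 : h 0 ≤ A + B) (h1 : ρ * A - C ≤ h 1) (hA : 0 ≤ A)
    (hA1 : 2 * C + ρ * B ≤ ρ * A) (hA2 : C + 1 + 4 * |c₀| ≤ ρ * A) :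
    ∀ j, j + 1 ≤ J → h 1 ≤ h (j + 1) ∧ 1 ≤ h (j + 1) ∧ (κ / 2) ^ j ≤ h (j + 1) ∧
      (j + 2 ≤ J → κ / 2 * h (j + 1) ≤ h (j + 2)) := by
  have hc := le_abs_self c₀
  have hc' := abs_nonneg c₀
  have h11 : 1 + 4 * |c₀| ≤ h 1 := by linarith
  have hκ0 : 0 < κ := by linarith
  -- one step
  have hstep : ∀ j, 1 ≤ h (j + 1) → |c₀| ≤ κ / 4 * h (j + 1) → β * h j ≤ κ / 4 * h (j + 1) →
      j + 2 ≤ J → κ / 2 * h (j + 1) ≤ h (j + 2) := by
    intro j _ h3 h4 h5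
    have h6 := hrec j h5
    linarith
  have hcc : ∀ x, h 1 ≤ x → |c₀| ≤ κ / 4 * x := by
    intro x hx
    have h2 : 1 / 2 * (4 * |c₀|) ≤ κ / 4 * x := by
      apply mul_le_mul (by linarith) (by linarith) (by positivity) (by linarith)
    linarith
  intro j
  induction j with
  | zero =>
    intro _
    refine ⟨le_rfl, by linarith, ?_, fun h5 => ?_⟩
    · rw [pow_zero]
      linarith
    · apply hstep 0 (by linarith) (hcc _ le_rfl) _ h5
      have e1 : β * h 0 ≤ β * (A + B) := mul_le_mul_of_nonneg_left h0 hβ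
      have e2 : β * (A + B) ≤ κ * ρ / 8 * (A + B) :=
        mul_le_mul_of_nonneg_right (by linarith) (by linarith)
      have e3 : κ / 4 * (ρ * A - C) ≤ κ / 4 * h 1 :=
        mul_le_mul_of_nonneg_left h1 (by linarith)
      have e4 : κ / 8 * (2 * C + ρ * B) ≤ κ / 8 * (ρ * A) :=
        mul_le_mul_of_nonneg_left hA1 (by linarith)
      have e5 : κ * ρ / 8 * (A + B) ≤ κ / 4 * (ρ * A - C) := by
        have e6 : κ / 4 * (ρ * A - C) - κ * ρ / 8 * (A + B) =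
            κ / 8 * (ρ * A) - κ / 8 * (2 * C + ρ * B) := by ring
        linarith
      change β * h 0 ≤ κ / 4 * h (0 + 1)
      rw [Nat.zero_add]
      linarith
  | succ j ih =>
    intro hj
    obtain ⟨i1, i2, i3, i4⟩ := ih (by omega)
    have i5 := i4 (by omega)
    have i6 : 1 * h (j + 1) ≤ κ / 2 * h (j + 1) :=
      mul_le_mul_of_nonneg_right (by linarith) (by linarith)
    have i7 : h 1 ≤ h (j + 2) := by linarith
    refine ⟨i7, by linarith, ?_, fun h5 => ?_⟩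
    · rw [pow_succ]
      have i8 : (κ / 2) ^ j * (κ / 2) ≤ h (j + 1) * (κ / 2) :=
        mul_le_mul_of_nonneg_right i3 (by linarith)
      calc (κ / 2) ^ j * (κ / 2) ≤ h (j + 1) * (κ / 2) := i8
        _ = κ / 2 * h (j + 1) := mul_comm _ _
        _ ≤ h (j + 1 + 1) := i5
    · apply hstep (j + 1) (by linarith) (hcc _ i7) _ h5
      have e1 : β * h (j + 1) ≤ κ / 4 * h (j + 1 + 1) := by
        have e2 : κ * (β * h (j + 1)) ≤ κ * (κ / 4 * h (j + 1 + 1)) := by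
          have e3 : κ ^ 2 / 4 * (κ / 2 * h (j + 1)) ≤ κ ^ 2 / 4 * h (j + 1 + 1) :=
            mul_le_mul_of_nonneg_left i5 (by positivity)
          have e4 : κ * (β * h (j + 1)) ≤ κ * (κ ^ 2 / 8 * h (j + 1)) := by
            apply mul_le_mul_of_nonneg_left _ hκ0.le
            exact mul_le_mul_of_nonneg_right (by linarith) (by linarith)
          calc κ * (β * h (j + 1)) ≤ κ * (κ ^ 2 / 8 * h (j + 1)) := e4
            _ = κ ^ 2 / 4 * (κ / 2 * h (j + 1)) := by ring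
            _ ≤ κ ^ 2 / 4 * h (j + 1 + 1) := e3
            _ = κ * (κ / 4 * h (j + 1 + 1)) := by ring
        exact le_of_mul_le_mul_left e2 hκ0
      exact e1

/-- a large number -/
theorem exists_large {ρ B C c₀ : ℝ} (hρ : 0 < ρ) : ∃ A₀ : ℝ, ∀ A, A₀ ≤ A → 0 ≤ A ∧
    2 * C + ρ * B ≤ ρ * A ∧ C + 1 + 4 * |c₀| ≤ ρ * A := by
  refine ⟨max 0 (max ((2 * C + ρ * B) / ρ) ((C + 1 + 4 * |c₀|) / ρ)), fun A hA => ⟨?_, ?_, ?_⟩⟩
  · exact (le_max_left _ _).trans hA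
  · have h1 := ((le_max_left _ _).trans (le_max_right _ _)).trans hA
    rw [div_le_iff₀ hρ] at h1
    linarith
  · have h1 := ((le_max_right _ _).trans (le_max_right _ _)).trans hA
    rw [div_le_iff₀ hρ] at h1
    linarith

/-- bounded sequences -/
theorem bounded_of_rec (u : ℕ → ℝ) (N : ℕ) {c M : ℝ} (h : ∀ i, i < N → 2 * u (i + 1) ≤ u i + c)
    (h0 : u 0 ≤ M) (hc : c ≤ M) : ∀ i, i ≤ N → u i ≤ M := by
  intro i
  induction i with
  | zero => exact fun _ => h0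
  | succ i ih =>
    intro hi
    have h1 := ih (by omega)
    have h2 := h i (by omega)
    linarith

end Pool.Agent.H18.BKH
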