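import Pool.Agent.H18.BKH.Rec2
import Pool.Agent.H18.BKH.Numb

/-!
# Backward heights: the first step
-/

set_option autoImplicit false

open MvPolynomial
open Pool.Agent.H12.ZD (pmap v O Res DenseOrbit NoInv)
open Pool.Agent.H18.HIT
open Pool.Agent.H8.ZA (HFam Const NA sz)
open Pool.Agent.H8.TD
open Pool.Agent.H18.TE

namespace Pool.Agent.H18.BKH

variable {τ : K3 Qb →ₐ[Qb] K3 Qb} {G : ℕ → Tup 4 Qb} {a : ℕ → ℕ} {e : ℕ}

theorem dg_range (h : Data τ G a e) (m : ℕ) : dg Qb (Set.range (ph τ m)) ≤ e ^ m := by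
  have h1 := h.pbk m (Al.bz1 Qb) (Pi.single 0 1) (Pi.single 1 1) (Pi.single 2 1)
  rw [lc_single, lc_single, lc_single, Nat.mul_one] at h1
  have h2 : Set.range (ph τ m) = {τ^[m] (xx Qb 0), τ^[m] (xx Qb 1), τ^[m] (xx Qb 2)} := by
    ext z
    simp only [Set.mem_range, Set.mem_insert_iff, Set.mem_singleton_iff]
    constructor
    · rintro ⟨i, rfl⟩
      fin_cases i
      · exact Or.inl rfl
      · exact Or.inr (Or.inl rfl)
      · exact Or.inr (Or.inr rfl)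
    · rintro (rfl | rfl | rfl)
      · exact ⟨0, rfl⟩
      · exact ⟨1, rfl⟩
      · exact ⟨2, rfl⟩
  rw [h2]
  exact h1

/-- the equation of a linear form over the coordinates of the iterate -/
theorem chr_data (hCHR : T_CHR) (h : Data τ G a e) (he : 1 ≤ e) {m Y : ℕ}
    {s s' s'' : Fin 3 → Qb}
    (hY : dg Qb {lc s (xx Qb), lc s' (ph τ m), lc s'' (ph τ m)} = Y) :
    ∃ (E Y' : ℕ) (P : Fin (E + 1) → Po 4 Qb) (c : Po 4 Qb), 1 ≤ E ∧
      (∀ j, (P j).IsHomogeneous Y') ∧ Cop P ∧ P 0 ≠ 0 ∧ c ≠ 0 ∧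
      E * ((Y : ℝ) / (e : ℝ) ^ m) ≤ Y' ∧
      (∀ w : Fin 3 → Qb, eval w (dh (G m 0)) ≠ 0 →
        ∑ j : Fin (E + 1), eval (pmap (G m) (Fin.cons 1 w)) (P j) *
          lc s w ^ (E - (j : ℕ)) = 0) ∧
      ∀ x : Fin 4 → Qb, eval x c ≠ 0 → ∀ r : Qb,
        ∑ j : Fin (E + 1), eval x (P j) * r ^ (E - (j : ℕ)) = 0 →
        ∃ w : Fin 3 → Qb, eval w (dh (G m 0)) ≠ 0 ∧
          aff (pmap (G m) (Fin.cons 1 w)) = aff x ∧ lc s w = r := by
  have hφ : (fun i : Fin 3 => qt (G m i.succ) (G m 0)) = ph τ m :=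
    funext fun i => (h.eq m i).symm
  obtain ⟨E, Y', P, c, hE, hP, hcop, hP0, hc, hdeg, hroot, hlift⟩ :=
    hCHR (G m) (a m) s (h.pos m) (h.hom m) (h.ne m) (by
      rw [hφ]
      exact alg_ph τ m)
  refine ⟨E, Y', P, c, hE, hP, hcop, hP0, hc, ?_, hroot, hlift⟩
  have h1 := hdeg s' s''
  rw [hφ, hY] at h1
  have h2 : Y * E ≤ Y' * e ^ m := h1.trans (Nat.mul_le_mul_left _ (dg_range h m))
  have h3 : (Y : ℝ) * E ≤ Y' * (e : ℝ) ^ m := by exact_mod_cast h2
  have he0 : (0 : ℝ) < (e : ℝ) ^ m := by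
    have : (0 : ℝ) < e := by exact_mod_cast he
    positivity
  rw [mul_div_assoc', div_le_iff₀ he0]
  linarith

/-- the monic polynomial -/
noncomputable def mq {E : ℕ} (c : Fin (E + 1) → Qb) : Polynomial Qb :=
  ∑ j : Fin (E + 1), Polynomial.C (c j / c 0) * Polynomial.X ^ (E - (j : ℕ))

theorem mq_spec {E : ℕ} (hE : 1 ≤ E) (c : Fin (E + 1) → Qb) (h0 : c 0 ≠ 0) :
    (mq c).Monic ∧ (mq c).natDegree = E ∧
      (∀ r, (mq c).eval r = 0 ↔ ∑ j : Fin (E + 1), c j * r ^ (E - (j : ℕ)) = 0) ∧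
      ∑ j : Fin (E + 1), Polynomial.C (c j) * Polynomial.X ^ (E - (j : ℕ)) =
        Polynomial.C (c 0) * ((mq c).roots.map fun r => Polynomial.X - Polynomial.C r).prod := by
  have h1 : mq c = Polynomial.X ^ E + ∑ j : Fin E, Polynomial.C (c j.succ / c 0) *
      Polynomial.X ^ (E - ((j.succ : Fin (E + 1)) : ℕ)) := by
    unfold mq
    rw [Fin.sum_univ_succ, div_self h0, Polynomial.C_1, one_mul, Fin.val_zero, Nat.sub_zero]
  have h2 : (∑ j : Fin E, Polynomial.C (c j.succ / c 0) *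
      Polynomial.X ^ (E - ((j.succ : Fin (E + 1)) : ℕ))).degree < ((E : ℕ) : WithBot ℕ) := by
    rw [← Polynomial.mem_degreeLT]
    apply sum_mem
    intro j _
    rw [Polynomial.mem_degreeLT]
    refine (Polynomial.degree_C_mul_X_pow_le _ _).trans_lt ?_
    rw [Nat.cast_lt, Fin.val_succ]
    omega
  have h3 : (mq c).Monic := by
    rw [h1]
    exact Polynomial.monic_X_pow_add h2
  have h4 : (mq c).natDegree = E := by
    rw [h1]
    apply Polynomial.natDegree_eq_of_degree_eq_some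
    rw [Polynomial.degree_add_eq_left_of_degree_lt]
    · exact Polynomial.degree_X_pow E
    · rw [Polynomial.degree_X_pow]
      exact h2
  have h5 : ∑ j : Fin (E + 1), Polynomial.C (c j) * Polynomial.X ^ (E - (j : ℕ)) =
      Polynomial.C (c 0) * mq c := by
    unfold mq
    rw [Finset.mul_sum]
    apply Finset.sum_congr rfl
    intro j _
    rw [← mul_assoc, ← Polynomial.C_mul, mul_div_cancel₀ _ h0]
  refine ⟨h3, h4, fun r => ?_, ?_⟩
  · have h6 := congrArg (Polynomial.eval r) h5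
    rw [Polynomial.eval_finsetSum, Polynomial.eval_mul, Polynomial.eval_C] at h6
    simp only [Polynomial.eval_mul, Polynomial.eval_C, Polynomial.eval_pow,
      Polynomial.eval_X] at h6
    rw [h6, mul_eq_zero]
    exact ⟨fun h => Or.inr h, fun h => h.resolve_left h0⟩
  · rw [h5]
    congr 1
    exact (IsAlgClosed.splits (mq c)).eq_prod_roots_of_monic h3

/-- the average of the heights of the conjugates of a preimage -/
theorem root_avg (hEQD : T_EQD) {K : IntermediateField ℚ Qb} (F : HFam K)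
    {Γ : Finset (Qb ≃ₐ[K] Qb)} {L : IntermediateField K Qb} (hΓ : Gc K Γ L) {E : ℕ} (hE : 1 ≤ E)
    (c : Fin (E + 1) → Qb) (h0 : c 0 ≠ 0) (hcK : ∀ j, c j ∈ K) (s : Fin 3 → Qb)
    (hs : ∀ i, s i ∈ K) (u : Fin 4 → Qb) (hu : ∀ i, u i ∈ L)
    (hroot : ∑ j : Fin (E + 1), c j * lc s (aff u) ^ (E - (j : ℕ)) = 0)
    (hconj : ∀ r, ∑ j : Fin (E + 1), c j * r ^ (E - (j : ℕ)) = 0 →
      ∃ τ : Qb ≃ₐ[K] Qb, τ (lc s (aff u)) = r) {B C cs : ℝ}
    (hB : ∀ S : Multiset Qb,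
      ∑ j : Fin (E + 1), Polynomial.C (c j) * Polynomial.X ^ (E - (j : ℕ)) =
        Polynomial.C (c 0) * (S.map fun r => Polynomial.X - Polynomial.C r).prod →
      B ≤ (S.map fun r => F.ht ![r, 0, 0]).sum + C)
    (hcs : ∀ w : Fin 3 → Qb, F.ht ![lc s w, 0, 0] ≤ F.ht w + cs) :
    Γ.card * (B - C) ≤ E * (av F Γ u + Γ.card * cs) := by
  obtain ⟨h1, h2, h3, h4⟩ := mq_spec hE c h0
  have hr₀L : lc s (aff u) ∈ L := by
    apply sum_mem
    intro i _
    rw [smul_eq_mul]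
    exact mul_mem (L.algebraMap_mem ⟨s i, hs i⟩) (div_mem (hu _) (hu _))
  have h5 := hEQD K Γ L hΓ (mq c) (lc s (aff u)) h1 (by
      intro j
      unfold mq
      rw [Polynomial.finsetSum_coeff]
      apply sum_mem
      intro i _
      rw [Polynomial.coeff_C_mul, Polynomial.coeff_X_pow]
      apply mul_mem (div_mem (hcK _) (hcK _))
      split_ifs
      · exact one_mem K
      · exact zero_mem K) hr₀L ((h3 _).2 hroot) (fun r hr => hconj r ((h3 r).1 hr))
    (fun r => F.ht ![r, 0, 0])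
  rw [h2] at h5
  have h6 := hB _ h4
  have h7 : ∑ σ ∈ Γ, F.ht ![σ (lc s (aff u)), 0, 0] ≤ av F Γ u + Γ.card * cs := by
    unfold av
    rw [← nsmul_eq_mul, ← Finset.sum_const, ← Finset.sum_add_distrib]
    apply Finset.sum_le_sum
    intro σ _
    have h8 : σ (lc s (aff u)) = lc s (aff fun i => σ (u i)) := by
      unfold lc
      rw [map_sum]
      apply Finset.sum_congr rfl
      intro i _
      rw [smul_eq_mul, smul_eq_mul, map_mul]
      have h9 : σ (s i) = s i := σ.commutes ⟨s i, hs i⟩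
      have h10 : σ (aff u i) = aff (fun i => σ (u i)) i := map_div₀ σ _ _
      rw [h9, h10]
    rw [h8]
    exact hcs _
  have hΓ0 : (0 : ℝ) ≤ Γ.card := Nat.cast_nonneg _
  calc (Γ.card : ℝ) * (B - C) ≤ Γ.card * ((mq c).roots.map fun r => F.ht ![r, 0, 0]).sum :=
        mul_le_mul_of_nonneg_left (by linarith) hΓ0
    _ = E * ∑ σ ∈ Γ, F.ht ![σ (lc s (aff u)), 0, 0] := h5
    _ ≤ _ := mul_le_mul_of_nonneg_left h7 (Nat.cast_nonneg _)

end Pool.Agent.H18.BKH
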