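import Pool.Agent.H18.BKH.Hil
import Pool.Agent.H50.TD.PRC

/-!
# Backward heights: iterates of the flow, conjugation
-/

set_option autoImplicit false

open MvPolynomial
open Pool.Agent.H12.ZD (pmap v O Res DenseOrbit NoInv)
open Pool.Agent.H18.HIT Pool.Agent.H8.HIT
open Pool.Agent.H8.ZA (HFam Const NA sz)
open Pool.Agent.H8.TD Pool.Agent.H50.TD
open Pool.Agent.H8.P2 (Lp Lm pmap_Lp Lp_ne Lm_ne Lp_Lm Lm_Lp comp_Lm_Lp comp_Lp_Lm comp_conj
  mem_vanT prime_conj star_conj tot_conj star tot cone iter_conj aeval_conj)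
open Pool.Agent.H18.TE

namespace Pool.Agent.H18.BKH

/-- the composition of maps which are the identity modulo `p` -/
theorem fl_comp {N : ℕ} (p : Nat.Primes) (H H₁ : Tup N (O p)) :
    comp (fl p H) (fl p H₁) = fl p (fun i => H₁ i + aeval (fl p H₁) (H i)) := by
  funext i
  change aeval (fl p H₁) (X i + C ((p : ℕ) : O p) * H i) = _
  rw [map_add, map_mul, aeval_X, aeval_C, algebraMap_eq]
  change X i + C ((p : ℕ) : O p) * H₁ i + _ = X i + C ((p : ℕ) : O p) *
    (H₁ i + aeval (fl p H₁) (H i))
  ring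

/-- the iterates of a map which is the identity modulo `p` -/
theorem fl_it {N : ℕ} (p : Nat.Primes) (H : Tup N (O p)) (m : ℕ) :
    ∃ H' : Tup N (O p), it (fl p H) m = fl p H' := by
  induction m with
  | zero =>
    refine ⟨fun _ => 0, ?_⟩
    rw [it_zero]
    funext i
    change X i = X i + C ((p : ℕ) : O p) * 0
    rw [mul_zero, add_zero]
  | succ m ih =>
    obtain ⟨H', hH'⟩ := ih
    rw [it_succ, hH', fl_comp]
    exact ⟨_, rfl⟩

/-- the iterates of a map which is the identity modulo `p`, over the algebraic numbers -/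
theorem flQ_it {N : ℕ} (p : Nat.Primes) (H : Tup N (O p)) (m : ℕ) :
    ∃ H' : Tup N (O p), flQ p H' = it (flQ p H) m := by
  obtain ⟨H', hH'⟩ := fl_it p H m
  refine ⟨H', ?_⟩
  have h2 : flQ p H' = it (flQ p H) m := by
    have h3 : ∀ n, it (flQ p H) n = fun i => map (O p).subtype (it (fl p H) n i) := by
      intro n
      induction n with
      | zero =>
        funext i
        rw [it_zero, it_zero, map_X]
      | succ n ih =>
        funext i
        rw [it_succ, it_succ]
        change aeval (it (flQ p H) n) (flQ p H i) =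
          map (O p).subtype (aeval (it (fl p H) n) (fl p H i))
        rw [ih]
        have h4 : ∀ q : Po N (O p), aeval (fun i => map (O p).subtype (it (fl p H) n i) :
            Tup N Qb) (map (O p).subtype q) =
            map (O p).subtype (aeval (it (fl p H) n) q) := by
          intro q
          induction q using MvPolynomial.induction_on with
          | C a =>
            rw [map_C, aeval_C, aeval_C, algebraMap_eq, algebraMap_eq, map_C]
          | add a b ha hb => rw [map_add, map_add, map_add, map_add, ha, hb]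
          | mul_X a i ha => rw [map_mul, map_mul, map_mul, map_mul, ha, map_X, aeval_X, aeval_X]
        exact h4 _
    rw [h3 m]
    funext i
    rw [hH']
    rfl
  exact h2

/-- primitive elements of conjugate maps, with the primitive element -/
theorem prc' (N : ℕ) (k : Type) [Field k] (T G L L' : Tup N k) (θ : Po N k)
    (Φ : Polynomial (Po N k)) (Δ : Po N k) (R : Fin N → Polynomial (Po N k))
    (h1 : comp L' L = (fun i => X i)) (h2 : comp L L' = (fun i => X i))
    (h3 : comp T L = comp L G) (hL : ∀ i, (L i).totalDegree ≤ 1) (hP : Prim G θ Φ Δ R) :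
    ∃ (Φ' : Polynomial (Po N k)) (Δ' : Po N k) (R' : Fin N → Polynomial (Po N k)),
      Prim T (aeval L' θ) Φ' Δ' R' ∧ Φ'.natDegree = Φ.natDegree ∧
      ∀ x : Fin N → k, eval (pmap L x) Δ' = eval x Δ := by
  have e1 : ∀ q : Po N k, aeval L (aeval L' q) = q := by
    intro q
    rw [← aeval_comp, h1]
    exact aeval_X_left_apply q
  have e2 : ∀ q : Po N k, aeval L' (aeval L q) = q := by
    intro q
    rw [← aeval_comp, h2]
    exact aeval_X_left_apply q
  have e3 : ∀ q : Po N k, aeval T (aeval L' q) = aeval L' (aeval G q) := by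
    intro q
    rw [← e2 (aeval T (aeval L' q)), ← aeval_comp T L, h3, aeval_comp, e1]
  have e4 : ∀ Ψ : Polynomial (Po N k), ev2 T (aeval L' θ)
      (Ψ.map (aeval L' : Po N k →ₐ[k] Po N k).toRingHom) = aeval L' (ev2 G θ Ψ) := by
    intro Ψ
    have h5 : aeval L' (ev2 G θ Ψ) = (aeval L' : Po N k →ₐ[k] Po N k).toRingHom
        (Ψ.eval₂ (aeval G : Po N k →ₐ[k] Po N k).toRingHom θ) := rfl
    rw [h5, Polynomial.hom_eval₂, ev2, Polynomial.eval₂_map]
    have h6 : (aeval T : Po N k →ₐ[k] Po N k).toRingHom.comp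
        (aeval L' : Po N k →ₐ[k] Po N k).toRingHom =
        (aeval L' : Po N k →ₐ[k] Po N k).toRingHom.comp
        (aeval G : Po N k →ₐ[k] Po N k).toRingHom := RingHom.ext fun q => e3 q
    rw [h6]
    rfl
  choose a l hal using fun i => affine_form (L i) (hL i)
  let R0 : Fin N → Polynomial (Po N k) := fun i => Polynomial.C (Δ * C (a i)) +
    ∑ j, Polynomial.C (C (l i j)) * R j
  have e5 : ∀ i, aeval G Δ * L i = ev2 G θ (R0 i) := by
    intro i
    have h5 : ev2 G θ (R0 i) = aeval G (Δ * C (a i)) + ∑ j, ev2 G θ (Polynomial.C (C (l i j)) * R j) := by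
      show ev2 G θ (Polynomial.C (Δ * C (a i)) + ∑ j, Polynomial.C (C (l i j)) * R j) = _
      rw [ev2_add, ev2_C]
      congr 1
      exact Polynomial.eval₂_finsetSum _ _ _ _
    rw [h5]
    conv_lhs => rw [hal i]
    rw [mul_add, map_mul, Finset.mul_sum]
    have h6 : ∀ c : k, aeval G (C c : Po N k) = (C c : Po N k) := fun c => by
      rw [aeval_C, algebraMap_eq]
    rw [h6]
    congr 1
    apply Finset.sum_congr rfl
    intro j _
    rw [ev2_mul, ev2_C, h6, ← hP.coord j]
    ring
  refine ⟨Φ.map (aeval L' : Po N k →ₐ[k] Po N k).toRingHom, aeval L' Δ,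
    fun i => (R0 i).map (aeval L' : Po N k →ₐ[k] Po N k).toRingHom, ⟨?_, ?_, ?_, ?_, ?_⟩, ?_, ?_⟩
  · exact hP.monic.map _
  · let E : Po N k ≃ₐ[k] Po N k := AlgEquiv.ofAlgHom (aeval L') (aeval L)
      (AlgHom.ext fun q => e2 q) (AlgHom.ext fun q => e1 q)
    have h5 := (MulEquiv.irreducible_iff (Polynomial.mapEquiv E.toRingEquiv)).mpr hP.irr
    exact h5
  · rw [e4, hP.root, map_zero]
  · intro h0
    apply hP.ne
    rw [← e1 Δ, h0, map_zero]
  · intro i
    have h5 : aeval L' (L i) = (X i : Po N k) := congrFun h2 i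
    show aeval T (aeval L' Δ) * X i = ev2 T (aeval L' θ) ((R0 i).map _)
    rw [e4, ← e5 i, e3, map_mul, h5]
  · exact hP.monic.natDegree_map _
  · intro x
    rw [eval_aeval, ← pmap_comp, h1, pmap_X]

end Pool.Agent.H18.BKH
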