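import Pool.Agent.H18.BKH.Basic
import Pool.Agent.H8.TD.Core2

/-!
# Backward heights: Hilbert-generic points on a line over a given number field
-/

set_option autoImplicit false

open MvPolynomial
open Pool.Agent.H12.ZD (pmap v O Res DenseOrbit NoInv)
open Pool.Agent.H18.HIT Pool.Agent.H8.HIT
open Pool.Agent.H12.HIT (lin_eval exists_numberField map_eq_self eval_conj exists_numberField'
  lin_coeff_mem exists_bound)
open Pool.Agent.H8.TD

namespace Pool.Agent.H18.BKH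

variable {N : ℕ}

/-- points on a line whose fibre is one Galois orbit -/
theorem hi3 (G : Tup N Qb) (θ : Po N Qb) (Φ : Polynomial (Po N Qb)) (Δ : Po N Qb)
    (R : Fin N → Polynomial (Po N Qb)) (hprim : Prim G θ Φ Δ R) (c : Po N Qb) (hc : c ≠ 0) :
    ∃ y : Fin N → ℤ, eval (cZ y) c ≠ 0 ∧ ∀ c' : Po N Qb, c' ≠ 0 →
      ∃ b : Fin N → ℤ, eval (cZ b) c' ≠ 0 ∧ ∀ K₀ : IntermediateField ℚ Qb,
        FiniteDimensional ℚ K₀ → ∀ M : ℕ, ∃ t : ℤ, (M : ℤ) < |t| ∧
        eval (cZ fun i => y i + t * b i) (c * Δ) ≠ 0 ∧ ∀ P P' : Fin N → Qb,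
          pmap G P = cZ (fun i => y i + t * b i) → pmap G P' = cZ (fun i => y i + t * b i) →
          ∃ σ : Qb ≃ₐ[K₀] Qb, (∀ i, map ((σ : Qb ≃+* Qb) : Qb →+* Qb) (G i) = G i) ∧
            ∀ i, σ (P i) = P' i := by
  classical
  obtain ⟨hΦm, hΦi, hΦθ, hΔ, hR⟩ := hprim
  obtain ⟨y, hy, hyb⟩ := brx N Φ (c * Δ) hΦm hΦi (mul_ne_zero hc hΔ)
  rw [map_mul] at hy
  refine ⟨y, left_ne_zero_of_mul hy, fun c' hc' => ?_⟩
  obtain ⟨b, hb, hirr⟩ := hyb c' hc'
  refine ⟨b, hb, fun K₀ hK₀fin M' => ?_⟩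
  have hcb : lin y b (c * Δ) ≠ 0 := by
    intro h0
    have h1 := lin_eval y b 0 (c * Δ)
    rw [h0, Polynomial.eval_zero, map_mul] at h1
    have h2 : (fun i => ((y i + 0 * b i : ℤ) : AlgebraicClosure ℚ)) = cZ y := by
      funext i
      rw [zero_mul, add_zero]
      rfl
    rw [h2] at h1
    exact hy h1.symm
  -- the number field
  obtain ⟨T1, -, hT1⟩ := exists_numberField' G ∅
  obtain ⟨T2, hT12, hT2⟩ := exists_numberField' (fun _ : Unit => Δ) T1
  obtain ⟨T3, hT23, hT3⟩ := exists_numberField'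
    (fun x : (i : Fin N) × Fin ((R i).natDegree + 1) => (R x.1).coeff x.2) T2
  obtain ⟨T4, hT34, hT4⟩ := exists_numberField'
    (fun x : Fin (Φ.natDegree + 1) => Φ.coeff x) T3
  obtain ⟨K₁, hK₁fin, hK₁⟩ := exists_numberField T4
  obtain ⟨K, hKdef⟩ : ∃ K : IntermediateField ℚ Qb, K = K₁ ⊔ K₀ := ⟨_, rfl⟩
  have hKfin : FiniteDimensional ℚ K := by
    rw [hKdef]
    exact IntermediateField.finiteDimensional_sup K₁ K₀
  have hK : ∀ x ∈ T4, x ∈ K := fun x hx => by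
    rw [hKdef]
    exact (le_sup_left : K₁ ≤ K₁ ⊔ K₀) (hK₁ x hx)
  have hK₀K : K₀ ≤ K := by
    rw [hKdef]
    exact le_sup_right
  have hKG := hT1 K fun x hx => hK x (hT34 (hT23 (hT12 hx)))
  have hKΔ := hT2 K (fun x hx => hK x (hT34 (hT23 hx))) ()
  have hKR : ∀ i j m, ((R i).coeff j).coeff m ∈ K := by
    intro i j m
    by_cases hj : j < (R i).natDegree + 1
    · exact hT3 K (fun x hx => hK x (hT34 hx)) ⟨i, ⟨j, hj⟩⟩ m
    · rw [Polynomial.coeff_eq_zero_of_natDegree_lt (by omega), coeff_zero]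
      exact zero_mem K
  have hKΦ : ∀ j m, (Φ.coeff j).coeff m ∈ K := by
    intro j m
    by_cases hj : j < Φ.natDegree + 1
    · exact hT4 K hK ⟨j, hj⟩ m
    · rw [Polynomial.coeff_eq_zero_of_natDegree_lt (by omega), coeff_zero]
      exact zero_mem K
  obtain ⟨M, hM⟩ := exists_bound (lin y b (c * Δ)) hcb
  obtain ⟨t, htM, hσ⟩ := All.hik K hKfin (Φ.map (lin y b)) (hΦm.map _) hirr
    (fun i j => by
      rw [Polynomial.coeff_map]
      exact lin_coeff_mem K y b _ (hKΦ i) j) (M + M')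
  have htM1 : (M : ℤ) < |t| := by
    push_cast at htM
    have := Int.natCast_nonneg M'
    linarith
  have htM2 : (M' : ℤ) < |t| := by
    push_cast at htM
    have := Int.natCast_nonneg M
    linarith
  have ht := hM t htM1
  rw [lin_eval] at ht
  have htz : eval (cZ fun i => y i + t * b i) (c * Δ) ≠ 0 := ht
  rw [map_mul] at ht
  have htΔ := right_ne_zero_of_mul ht
  refine ⟨t, htM2, htz, fun P P' hP hP' => ?_⟩
  replace hP : ∀ i, eval P (G i) = ((y i + t * b i : ℤ) : AlgebraicClosure ℚ) :=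
    fun i => congrFun hP i
  replace hP' : ∀ i, eval P' (G i) = ((y i + t * b i : ℤ) : AlgebraicClosure ℚ) :=
    fun i => congrFun hP' i
  have hev : ∀ (Q : Fin N → AlgebraicClosure ℚ),
      (∀ i, eval Q (G i) = ((y i + t * b i : ℤ) : AlgebraicClosure ℚ)) →
      ∀ q : MvPolynomial (Fin N) (AlgebraicClosure ℚ), eval Q (aeval G q) =
        eval (fun i => ((y i + t * b i : ℤ) : AlgebraicClosure ℚ)) q := by
    intro Q hQ q
    have h : ((eval Q).comp (aeval G).toRingHom) =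
        eval (fun i => ((y i + t * b i : ℤ) : AlgebraicClosure ℚ)) := by
      apply MvPolynomial.ringHom_ext
      · intro r
        simp
      · intro i
        simpa using hQ i
    exact DFunLike.congr_fun h q
  have hev2 : ∀ (Q : Fin N → AlgebraicClosure ℚ),
      (∀ i, eval Q (G i) = ((y i + t * b i : ℤ) : AlgebraicClosure ℚ)) →
      ∀ q : Polynomial (MvPolynomial (Fin N) (AlgebraicClosure ℚ)),
        eval Q (ev2 G θ q) =
        (q.map (eval (fun i => ((y i + t * b i : ℤ) : AlgebraicClosure ℚ)))).eval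
          (eval Q θ) := by
    intro Q hQ q
    rw [ev2, Polynomial.hom_eval₂, Polynomial.eval_map]
    congr 1
    exact RingHom.ext (hev Q hQ)
  have hmap : (Φ.map (lin y b)).map (Polynomial.evalRingHom (t : AlgebraicClosure ℚ)) =
      Φ.map (eval (fun i => ((y i + t * b i : ℤ) : AlgebraicClosure ℚ))) := by
    rw [Polynomial.map_map]
    congr 1
    exact RingHom.ext fun q => lin_eval y b t q
  rw [hmap] at hσ
  obtain ⟨σ, hσ⟩ := hσ (eval P θ) (eval P' θ)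
    (by rw [← hev2 P hP, hΦθ, map_zero]) (by rw [← hev2 P' hP', hΦθ, map_zero])
  refine ⟨AlgEquiv.ofRingEquiv (f := σ.toRingEquiv) fun x => σ.commutes ⟨(x : Qb), hK₀K x.2⟩,
    fun i => map_eq_self K σ (G i) (hKG i), fun i => ?_⟩
  change σ (P i) = P' i
  have e1 := congrArg (eval P) (hR i)
  have e2 := congrArg (eval P') (hR i)
  rw [hev2 P hP, map_mul, hev P hP, eval_X] at e1
  rw [hev2 P' hP', map_mul, hev P' hP', eval_X] at e2
  have hz : ∀ q : MvPolynomial (Fin N) (AlgebraicClosure ℚ), (∀ m, q.coeff m ∈ K) →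
      σ (eval (fun i => ((y i + t * b i : ℤ) : AlgebraicClosure ℚ)) q) =
        eval (fun i => ((y i + t * b i : ℤ) : AlgebraicClosure ℚ)) q := by
    intro q hq
    rw [eval_conj K σ q hq]
    congr 1
    congr 1
    funext i
    exact map_intCast σ _
  have e3 := congrArg σ e1
  rw [map_mul, hz Δ hKΔ] at e3
  have e4 : σ (((R i).map (eval (fun i => ((y i + t * b i : ℤ) : AlgebraicClosure ℚ)))).eval
      (eval P θ)) = ((R i).map (eval (fun i => ((y i + t * b i : ℤ) :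
        AlgebraicClosure ℚ)))).eval (eval P' θ) := by
    rw [Polynomial.eval_eq_sum_range, Polynomial.eval_eq_sum_range, map_sum]
    refine Finset.sum_congr rfl fun j _ => ?_
    rw [map_mul, map_pow, hσ, Polynomial.coeff_map, hz _ (hKR i j)]
  rw [e4, ← e2] at e3
  exact mul_left_cancel₀ htΔ e3

/-- the core of the construction for the points of a line -/
theorem core4 (p : Nat.Primes) (hp : 3 ≤ (p : ℕ)) (H : Tup N (O p)) (c : Po N Qb)
    (hc : c ≠ 0) (hinj : Function.Injective (aeval (flQ p H) : Po N Qb →ₐ[Qb] Po N Qb))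
    (θ : Po N Qb) (Φ : Polynomial (Po N Qb)) (Δ : Po N Qb)
    (R : Fin N → Polynomial (Po N Qb)) (hprim : Prim (flQ p H) θ Φ Δ R) :
    ∃ y : Fin N → ℤ, eval (cZ y) c ≠ 0 ∧ ∀ c' : Po N Qb, c' ≠ 0 →
      ∃ b : Fin N → ℤ, eval (cZ b) c' ≠ 0 ∧ ∀ K₀ : IntermediateField ℚ Qb,
        FiniteDimensional ℚ K₀ → ∀ M : ℕ, ∃ t : ℤ, (M : ℤ) < |t| ∧
        ∃ z P : Fin N → O p, (∀ i, z i = ((y i + t * b i : ℤ) : O p)) ∧
          cO z = cZ (fun i => y i + t * b i) ∧ eval (cO z) c ≠ 0 ∧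
          eval (cO z) Δ ≠ 0 ∧ pmap (fl p H) P = z ∧
          (∀ q ∈ van (flQ p H) (cO z), eval (cO P) q = 0) ∧
          (∀ P' : Fin N → Qb, pmap (flQ p H) P' = cO z → ∃ σ : Qb ≃ₐ[K₀] Qb,
            (∀ i, map ((σ : Qb ≃+* Qb) : Qb →+* Qb) (flQ p H i) = flQ p H i) ∧
            (∀ i, σ (cO z i) = cO z i) ∧ ∀ i, σ (cO P i) = P' i) ∧
          (∀ g : Fin Φ.natDegree → Po N Qb,
            (∑ i : Fin Φ.natDegree, θ ^ (i : ℕ) * aeval (flQ p H) (g i)) ∈
              van (flQ p H) (cO z) → ∀ i, g i ∈ van (flQ p H) (cO z)) := by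
  obtain ⟨cG, hcG0, hcG⟩ := All.cve N Qb (flQ p H) θ Φ Δ R hinj hprim
  obtain ⟨y, hy, hyb⟩ := hi3 (flQ p H) θ Φ Δ R hprim (c * cG) (mul_ne_zero hc hcG0)
  rw [map_mul] at hy
  refine ⟨y, left_ne_zero_of_mul hy, fun c' hc' => ?_⟩
  obtain ⟨b, hb, hbt⟩ := hyb c' hc'
  refine ⟨b, hb, fun K₀ hK₀ M => ?_⟩
  obtain ⟨t, ht, hzc, hgal⟩ := hbt K₀ hK₀ M
  refine ⟨t, ht, ?_⟩
  set z₀ : Fin N → ℤ := fun i => y i + t * b i with hz₀
  set z : Fin N → O p := fun i => ((z₀ i : ℤ) : O p) with hz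
  have hzc' : cO z = cZ z₀ := cO_intCast p z₀
  rw [map_mul, map_mul, ← hzc'] at hzc
  have hzΔ : eval (cO z) Δ ≠ 0 := right_ne_zero_of_mul hzc
  obtain ⟨P, hP, hPvan⟩ := All.pre N p H z θ Φ Δ R hp hprim hzΔ
  obtain ⟨S, hS, hS'⟩ := hcG (cO z) (right_ne_zero_of_mul (left_ne_zero_of_mul hzc))
  have hPG : pmap (flQ p H) (cO P) = cO z := by
    rw [← hP]
    exact pmap_cO (fl p H) P
  have hgal' : ∀ P' : Fin N → Qb, pmap (flQ p H) P' = cO z → ∃ σ : Qb ≃ₐ[K₀] Qb,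
        (∀ i, map ((σ : Qb ≃+* Qb) : Qb →+* Qb) (flQ p H i) = flQ p H i) ∧
        (∀ i, σ (cO z i) = cO z i) ∧ ∀ i, σ (cO P i) = P' i := by
    intro P' hP'
    obtain ⟨σ, hσ1, hσ2⟩ := hgal (cO P) P' (by rw [← hzc']; exact hPG) (by rw [← hzc']; exact hP')
    refine ⟨σ, hσ1, fun i => ?_, hσ2⟩
    rw [hzc']
    exact map_intCast σ (z₀ i)
  have hjn : ∀ n, eval ((pmap (flQ p H))^[n] (cO z)) (jac (flQ p H)) ≠ 0 := by
    intro n
    rw [flQ_iterate]
    exact jac_fl_ne p H _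
  have hIJ := All.ijp N Qb (flQ p H) (cO z) (cO P) hPG hjn (jac_fl_ne p H P) hPvan
  set en := Finset.equivFinOfCardEq hS with hen
  have hG : ∀ a : Fin Φ.natDegree, (∀ (l : ℕ) (c : Po N Qb),
      aeval (flQ p H) c ∈ van (flQ p H) (cO z) ⊔ mx ((en.symm a : Fin N → Qb)) ^ l →
        c ∈ van (flQ p H) (cO z) ⊔ mx (cO z) ^ l) ∧
      eval ((en.symm a : Fin N → Qb)) (jac (flQ p H)) ≠ 0 ∧
      pmap (flQ p H) ((en.symm a : Fin N → Qb)) = cO z := by
    intro a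
    obtain ⟨σ, h1, h2, h3⟩ := hgal' (en.symm a : Fin N → Qb) (hS' _ (en.symm a).2)
    obtain ⟨g1, g2, g3, g4⟩ := All.glt N Qb (flQ p H) (cO z) (cO P)
      (en.symm a : Fin N → Qb) (σ : Qb ≃+* Qb) h1 h2 h3 hIJ
    refine ⟨g1, ?_, g4 hPG⟩
    intro h0
    rw [← g3] at h0
    exact jac_fl_ne p H P ((map_eq_zero σ).1 h0)
  refine ⟨z, P, fun i => rfl, hzc', left_ne_zero_of_mul (left_ne_zero_of_mul hzc), hzΔ, hP, hPvan,
    hgal', ?_⟩
  intro g hg i
  have hall := Pool.Agent.H94.HIT.pf_VDM N Qb (flQ p H) (cO z) Φ.natDegree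
    (fun a => (en.symm a : Fin N → Qb)) θ
    (fun a => (hG a).2.2) (fun a b hab => by
      have h1 := Pool.Agent.H8.P2.thd hprim hzΔ (hG a).2.2 (hG b).2.2 hab
      exact en.symm.injective (Subtype.ext h1))
    (fun a l q => All.etl N Qb (flQ p H) _ (hG a).2.1 l q) (fun a => (hG a).1) g hg i
  obtain ⟨m, hm, hmc⟩ := Pool.Agent.H94.HIT.pf_KRU N Qb (van (flQ p H) (cO z)) (cO z) (g i) hall
  refine All.inc N p H z (1 - m) (g i) hp hmc ?_
  rw [map_sub, map_one, mem_mx.1 hm, sub_zero]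
  exact one_ne_zero

end Pool.Agent.H18.BKH
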