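import Pool.Agent.H18.TE.Targets
import Pool.Agent.H18.BKH.Basic
import Pool.Agent.H64.TD.KIN

/-!
# Row KIL: the height inequality with its error term
-/

set_option autoImplicit false

open MvPolynomial
open Pool.Agent.H12.ZD (pmap v O Res DenseOrbit NoInv)
open Pool.Agent.H18.HIT
open Pool.Agent.H8.ZA (HFam Const NA sz)
open Pool.Agent.H8.TD Pool.Agent.H64.TD
open Pool.Agent.H18.TE

namespace Pool.Agent.H18.BKH

theorem pf_KIL (hSRB : T_SRB) (hDLB : T_DLB) (hAXF : T_AXF) (hNUM : Pool.Agent.H8.TD.T_NUM) (hGNX : T_GNX)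
    (hWBX : T_WBX) : T_KIL := by
  classical
  intro R K _ _ _ _ _ _ _ A B g Q Q' M s t t' hinj htr htop hQ hM hQs hQ' hMle hex
  -- the maximum
  obtain ⟨q, hq1, hqQ, hqmax, u, u', huu⟩ : ∃ q : ℕ, 1 ≤ q ∧ q ≤ Q' ∧
      (∀ u u' : Fin 3 → Qb, dg Qb {algebraMap R K g, lc u (fun i => algebraMap R K (B i)),
        lc u' (fun i => algebraMap R K (B i))} ≤ q) ∧
      ∃ u u' : Fin 3 → Qb, dg Qb {algebraMap R K g, lc u (fun i => algebraMap R K (B i)),
        lc u' (fun i => algebraMap R K (B i))} = q := by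
    set P : ℕ → Prop := fun m => ∃ u u' : Fin 3 → Qb, dg Qb {algebraMap R K g,
      lc u (fun i => algebraMap R K (B i)), lc u' (fun i => algebraMap R K (B i))} = m with hP
    obtain ⟨u, u', hu1⟩ := hex
    refine ⟨Nat.findGreatest P Q', ?_, Nat.findGreatest_le Q', ?_, ?_⟩
    · exact hu1.trans (Nat.le_findGreatest (hQ' u u') ⟨u, u', rfl⟩)
    · intro w w'
      exact Nat.le_findGreatest (hQ' w w') ⟨w, w', rfl⟩
    · exact Nat.findGreatest_spec (P := P) (hQ' u u') ⟨u, u', rfl⟩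
  have htg : Transcendental Qb (algebraMap R K g) :=
    transc_of_dg _ _ _ htr (huu ▸ hq1)
  have htgR : Transcendental Qb g := (transcendental_algebraMap_iff hinj).1 htg
  -- the parameters
  obtain ⟨n₀, hn₀⟩ := hDLB Qb K 3 3 (fun i => algebraMap R K (A i))
    (fun i => algebraMap R K (B i)) s t t' htr htop (hQ.trans hQs)
  obtain ⟨t₀, n, l, ht₀, hn, hl, hnum⟩ := hNUM Q q M n₀ hQ hq1 hM
  have hdl := hn₀ n l
  have hsr := hSRB Qb K 3 3 (fun i => algebraMap R K (A i))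
    (fun i => algebraMap R K (B i)) (algebraMap R K g) M q (n + n₀) (l + n₀)
    (18 * M * t₀ + 1) u u' htr htop hq1 huu hqmax hMle (by
      rw [hn, hl]
      nlinarith)
  -- the auxiliary section
  have hfinW : Module.Finite Qb (Wsp Qb A B (n + n₀) (l + n₀)) := Wsp_finite A B _ _
  obtain ⟨S, S', hS'0, hSS, hSW⟩ := hAXF Qb R K (Wsp Qb A B (n + n₀) (l + n₀)) g (Q * t₀)
    ((18 * M * t₀ + 1) * ((n + n₀) * M + (l + n₀ + 1) * q)) hinj htgR hfinW
    (by rw [span_Wsp]; exact hsr) (by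
      rw [finrank_Wsp (K := K) A B hinj]
      refine lt_of_lt_of_le ?_ hdl
      calc Q * t₀ * ((18 * M * t₀ + 1) * ((n + n₀) * M + (l + n₀ + 1) * q))
          = Q * t₀ * ((18 * M * t₀ + 1) * (9 * q * t₀ * M + (9 * M * t₀ + 1) * q)) := by
            rw [hn, hl]
        _ < Q * ((n + 1) * ((l + 1) * (l + 2) / 2)) := hnum
        _ ≤ _ := Nat.mul_le_mul_right _ hQs)
  obtain ⟨γ₀, hγ₀⟩ := ne_zero_iff.1 hS'0
  refine ⟨coeff γ₀ S', 1 / t₀, hγ₀, fun K' F => ?_⟩
  -- constants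
  choose cG hcG0 hcG1 hcGna hcG using fun i =>
    hGNX Qb (Q * t₀) S'.totalDegree (F.abv i)
  choose cW hcW hcWb using fun γ => hWBX R A B (n + n₀) (l + n₀) (coeff γ S) (hSW γ) K' F
  set CW : F.ι → ℝ := fun i => ∏ γ ∈ S.support, cW γ i with hCW
  have hCWc : Const F CW := Pool.Agent.H8.ZA.Const.prod _ _ fun γ _ => hcW γ
  have hGc : Const F fun i => (cG i)⁻¹ := by
    refine ⟨fun i => (one_le_inv₀ (hcG0 i)).2 (hcG1 i), ?_⟩
    refine (F.arch.finite_toSet).subset fun i hi => ?_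
    by_contra hcon
    exact hi (by rw [hcGna i (F.na i hcon), inv_one])
  set CC : F.ι → ℝ := fun i => CW i * (cG i)⁻¹ with hCC
  have hCCc : Const F CC := hCWc.mul hGc
  refine ⟨(∑ᶠ i, Real.log (CC i)) / t₀, fun ev hb0 => ?_⟩
  -- the local inequality
  have hloc : ∀ i, cG i * max 1 (F.abv i (ev g)) ^ (Q * t₀) *
      F.abv i (ev (coeff γ₀ S')) ≤
      CW i * (sz (F.abv i) (fun j => ev (A j)) ^ (n + n₀) *
        sz (F.abv i) (fun j => ev (B j)) ^ (l + n₀)) := by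
    intro i
    have hms : map (ev : R →+* Qb) S =
        (∏ j, (X j - C (ev g))) * map (ev : R →+* Qb) S' := by
      rw [hSS, map_mul, map_prod]
      congr 1
      apply Finset.prod_congr rfl
      intro j _
      rw [map_sub, map_X, map_C]
      rfl
    have hdeg : (map (ev : R →+* Qb) S').totalDegree ≤ S'.totalDegree :=
      Pool.Agent.H8.ZA.totalDegree_map_le _ _
    obtain ⟨γ', hγ'⟩ := hcG i (ev g) (map (ev : R →+* Qb) S') hdeg γ₀
    rw [← hms, coeff_map, coeff_map] at hγ'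
    refine hγ'.trans ?_
    have hR : 0 ≤ sz (F.abv i) (fun j => ev (A j)) ^ (n + n₀) *
        sz (F.abv i) (fun j => ev (B j)) ^ (l + n₀) :=
      mul_nonneg (pow_nonneg (Pool.Agent.H8.ZA.sz_pos _ _).le _)
        (pow_nonneg (Pool.Agent.H8.ZA.sz_pos _ _).le _)
    by_cases hsup : γ' ∈ S.support
    · refine (hcWb γ' i ev).trans ?_
      exact mul_le_mul_of_nonneg_right
        (Pool.Agent.H8.ZA.le_prod_const _ _ (fun γ _ => hcW γ) hsup i) hR
    · rw [notMem_support_iff.1 hsup, map_zero, map_zero]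
      exact mul_nonneg (hCWc.pos i).le hR
  have hloc2 : ∀ i, ((Q * t₀ : ℕ) : ℝ) * Real.log (sz (F.abv i) ![ev g, 0, 0]) +
      Real.log (F.abv i (ev (coeff γ₀ S'))) ≤
      ((n + n₀ : ℕ) : ℝ) * Real.log (sz (F.abv i) (fun j => ev (A j))) +
      ((l + n₀ : ℕ) : ℝ) * Real.log (sz (F.abv i) (fun j => ev (B j))) +
        Real.log (CC i) := by
    intro i
    have hb : 0 < F.abv i (ev (coeff γ₀ S')) := (F.abv i).pos hb0
    have hsA := Pool.Agent.H8.ZA.sz_pos (F.abv i) (fun j => ev (A j))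
    have hsB := Pool.Agent.H8.ZA.sz_pos (F.abv i) (fun j => ev (B j))
    have hmx : (0 : ℝ) < max 1 (F.abv i (ev g)) := lt_of_lt_of_le one_pos (le_max_left _ _)
    have h2 := Real.log_le_log (mul_pos (mul_pos (hcG0 i) (pow_pos hmx _)) hb) (hloc i)
    rw [Real.log_mul (mul_pos (hcG0 i) (pow_pos hmx _)).ne' hb.ne',
      Real.log_mul (hcG0 i).ne' (pow_pos hmx _).ne', Real.log_pow,
      Real.log_mul (hCWc.pos i).ne' (mul_pos (pow_pos hsA _) (pow_pos hsB _)).ne',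
      Real.log_mul (pow_pos hsA _).ne' (pow_pos hsB _).ne', Real.log_pow,
      Real.log_pow] at h2
    have h3 : Real.log (CC i) = Real.log (CW i) - Real.log (cG i) := by
      simp only [hCC]
      rw [Real.log_mul (hCWc.pos i).ne' (inv_pos.2 (hcG0 i)).ne', Real.log_inv]
      ring
    rw [h3, sz_single]
    linarith
  have hfin : ((Q * t₀ : ℕ) : ℝ) * F.ht ![ev g, 0, 0] + lg F (ev (coeff γ₀ S')) ≤
      ((n + n₀ : ℕ) : ℝ) * F.ht (fun j => ev (A j)) +
      ((l + n₀ : ℕ) : ℝ) * F.ht (fun j => ev (B j)) + ∑ᶠ i, Real.log (CC i) := by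
    exact ht_lg F (x := ![ev g, 0, 0]) (y := fun j => ev (A j)) (z := fun j => ev (B j))
      (ev (coeff γ₀ S')) hb0 CC hCCc hloc2
  have htpos : (0 : ℝ) < t₀ := by exact_mod_cast ht₀
  have hqQR : (q : ℝ) ≤ Q' := by exact_mod_cast hqQ
  have hA0 := Pool.Agent.H8.ZA.ht_nonneg F (fun j => ev (A j))
  have h5 : (t₀ : ℝ) * (Q * F.ht ![ev g, 0, 0] + 1 / t₀ * lg F (ev (coeff γ₀ S'))) ≤
      t₀ * (9 * q * F.ht (fun j => ev (A j)) +
      9 * M * F.ht (fun j => ev (B j)) + (∑ᶠ i, Real.log (CC i)) / t₀) := by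
    have e1 : (t₀ : ℝ) * ((∑ᶠ i, Real.log (CC i)) / t₀) = ∑ᶠ i, Real.log (CC i) := by
      field_simp
    have e2 : (t₀ : ℝ) * (1 / t₀ * lg F (ev (coeff γ₀ S'))) = lg F (ev (coeff γ₀ S')) := by
      field_simp
    rw [hn, hl] at hfin
    push_cast at hfin
    calc (t₀ : ℝ) * (Q * F.ht ![ev g, 0, 0] + 1 / t₀ * lg F (ev (coeff γ₀ S'))) =
        Q * t₀ * F.ht ![ev g, 0, 0] + lg F (ev (coeff γ₀ S')) := by
          rw [mul_add, e2]
          ring
      _ ≤ _ := hfin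
      _ = _ := by
        rw [mul_add, e1]
        ring
  have h6 := le_of_mul_le_mul_left h5 htpos
  have h7 : 9 * (q : ℝ) * F.ht (fun j => ev (A j)) ≤ 9 * Q' * F.ht (fun j => ev (A j)) :=
    mul_le_mul_of_nonneg_right (by linarith) hA0
  linarith

end Pool.Agent.H18.BKH
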