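import Pool.Agent.H18.BKH.Flow
import Pool.Agent.H18.BKH.KIL
import Pool.Agent.H8.TD.Rec3

/-!
# Backward heights: the averaged recursion
-/

set_option autoImplicit false

open MvPolynomial
open Pool.Agent.H12.ZD (pmap v O Res DenseOrbit NoInv)
open Pool.Agent.H18.HIT
open Pool.Agent.H8.ZA (HFam Const NA sz)
open Pool.Agent.H8.TD
open Pool.Agent.H18.TE

namespace Pool.Agent.H18.BKH

theorem kil : T_KIL := pf_KIL Al.srb Al.dlb Al.axf Al.num Al.gnx Al.wbx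

/-- automorphisms and values of polynomials -/
theorem map_eval {K : IntermediateField ℚ Qb} {N : ℕ} (σ : Qb ≃ₐ[K] Qb) (q : Po N Qb)
    (hq : ∀ x ∈ q.coeffs, x ∈ K) (y : Fin N → Qb) :
    σ (eval y q) = eval (fun i => σ (y i)) q := by
  rw [eval_eq', eval_eq', map_sum]
  apply Finset.sum_congr rfl
  intro m hm
  rw [map_mul, map_prod]
  have h1 : σ (coeff m q) = coeff m q := by
    have h2 : coeff m q ∈ K := hq _ (by
      rw [mem_coeffs_iff]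
      exact ⟨m, hm, rfl⟩)
    exact σ.commutes ⟨_, h2⟩
  rw [h1]
  congr 1
  exact Finset.prod_congr rfl fun i _ => map_pow σ _ _

theorem map_pmap {K : IntermediateField ℚ Qb} {N : ℕ} (σ : Qb ≃ₐ[K] Qb) (T : Tup N Qb)
    (hT : ∀ i, ∀ x ∈ (T i).coeffs, x ∈ K) (y : Fin N → Qb) :
    (fun i => σ (pmap T y i)) = pmap T fun i => σ (y i) :=
  funext fun i => map_eval σ (T i) (hT i) y

theorem map_aff {K : IntermediateField ℚ Qb} (σ : Qb ≃ₐ[K] Qb) (y : Fin 4 → Qb) :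
    (fun i => σ (aff y i)) = aff fun i => σ (y i) := by
  funext i
  exact map_div₀ σ _ _

theorem eval_memL {K : IntermediateField ℚ Qb} {L : IntermediateField K Qb} {N : ℕ}
    (q : Po N Qb) (hq : ∀ x ∈ q.coeffs, x ∈ K) (y : Fin N → Qb) (hy : ∀ i, y i ∈ L) :
    eval y q ∈ L := by
  rw [eval_eq']
  apply sum_mem
  intro m hm
  apply mul_mem
  · have h2 : coeff m q ∈ K := hq _ (by
      rw [mem_coeffs_iff]
      exact ⟨m, hm, rfl⟩)
    exact L.algebraMap_mem ⟨_, h2⟩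
  · exact prod_mem fun j _ => pow_mem (hy j) _

/-- the height inequality for three functions with its error terms -/
theorem kin3L (q : Po 3 Qb) (R : Type) [CommRing R] [IsDomain R] [Algebra Qb R]
    [Algebra (Po 3 Qb) R] [Algebra R (K3 Qb)] [IsScalarTower Qb R (K3 Qb)]
    (hinj : Function.Injective (algebraMap R (K3 Qb)))
    (hevR : ∀ y : Fin 3 → Qb, eval y q ≠ 0 → ∃ ev : R →ₐ[Qb] Qb,
      ∀ p : Po 3 Qb, ev (algebraMap (Po 3 Qb) R p) = eval y p)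
    (hnumR : ∀ b : R, b ≠ 0 → ∃ (p : Po 3 Qb) (n : ℕ), p ≠ 0 ∧
      b * algebraMap (Po 3 Qb) R (q ^ n) = algebraMap (Po 3 Qb) R p)
    (A B g : Fin 3 → R) (Q Q' M : ℕ)
    (s t t' : Fin 3 → Qb)
    (hadj : IntermediateField.adjoin Qb (Set.range (fun i => algebraMap R (K3 Qb) (A i)) ∪
      Set.range (fun i => algebraMap R (K3 Qb) (B i))) = ⊤) (hQ : 1 ≤ Q) (hM : 1 ≤ M)
    (hQs : Q ≤ dg Qb {lc s (fun i => algebraMap R (K3 Qb) (A i)),
      lc t (fun i => algebraMap R (K3 Qb) (B i)), lc t' (fun i => algebraMap R (K3 Qb) (B i))})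
    (h1 : Bd Qb (fun i => algebraMap R (K3 Qb) (g i)) (fun i => algebraMap R (K3 Qb) (B i))
      (fun i => algebraMap R (K3 Qb) (B i)) Q')
    (h2 : Bd Qb (fun i => algebraMap R (K3 Qb) (g i)) (fun i => algebraMap R (K3 Qb) (B i))
      (fun i => algebraMap R (K3 Qb) (A i)) M)
    (h3 : ∀ i, ∃ u u' : Fin 3 → Qb, 1 ≤ dg Qb {algebraMap R (K3 Qb) (g i),
      lc u (fun i => algebraMap R (K3 Qb) (B i)), lc u' (fun i => algebraMap R (K3 Qb) (B i))}) :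
    ∃ (p : Fin 3 → Po 3 Qb) (μ : Fin 3 → ℝ) (ν : ℝ), (∀ i, p i ≠ 0) ∧
      ∀ (K' : IntermediateField ℚ Qb) (F : HFam K'),
      ∃ c : ℝ, ∀ y : Fin 3 → Qb, eval y q ≠ 0 → (∀ i, eval y (p i) ≠ 0) →
        ∃ ev : R →ₐ[Qb] Qb, (∀ p, ev (algebraMap (Po 3 Qb) R p) = eval y p) ∧
          (Q : ℝ) * F.ht (fun i => ev (g i)) + (∑ i, μ i * lg F (eval y (p i)) -
            ν * lg F (eval y q)) ≤ 27 * Q' * F.ht (fun i => ev (A i)) +
            27 * M * F.ht (fun i => ev (B i)) + c := by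
  classical
  have hk : ∀ i : Fin 3, ∃ (b : R) (μ : ℝ), b ≠ 0 ∧
      ∀ (K' : IntermediateField ℚ Qb) (F : HFam K'),
      ∃ c : ℝ, ∀ ev : R →ₐ[Qb] Qb, ev b ≠ 0 →
      (Q : ℝ) * F.ht ![ev (g i), 0, 0] + μ * lg F (ev b) ≤
        9 * Q' * F.ht (fun i => ev (A i)) + 9 * M * F.ht (fun i => ev (B i)) + c := by
    intro i
    apply kil R (K3 Qb) A B (g i) Q Q' M s t t' hinj (trdeg_K3 Qb) hadj hQ hM hQs
    · intro u u'
      have h4 := h1 (Pi.single i 1) u u'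
      rw [lc_single] at h4
      exact h4
    · intro u u'
      have h4 := h2 (Pi.single i 1) u u'
      rw [lc_single] at h4
      exact h4
    · exact h3 i
  choose b μ hb hkey using hk
  choose p n hp hnum using fun i => hnumR (b i) (hb i)
  refine ⟨p, μ, ∑ i, μ i * n i, hp, fun K' F => ?_⟩
  choose c hc using fun i => hkey i K' F
  refine ⟨c 0 + c 1 + c 2, fun y hq' hp' => ?_⟩
  obtain ⟨ev, hev⟩ := hevR y hq'
  refine ⟨ev, hev, ?_⟩
  have hb1 : ∀ i, ev (b i) * eval y q ^ n i = eval y (p i) := by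
    intro i
    have h4 := congrArg ev (hnum i)
    rw [map_mul, hev, hev, map_pow] at h4
    exact h4
  have hb2 : ∀ i, ev (b i) ≠ 0 := by
    intro i h0
    have h4 := hb1 i
    rw [h0, zero_mul] at h4
    exact hp' i h4.symm
  have hb3 : ∀ i, lg F (ev (b i)) = lg F (eval y (p i)) - n i * lg F (eval y q) := by
    intro i
    rw [← hb1 i, lg_mul F (hb2 i) (pow_ne_zero _ hq'), lg_pow F hq']
    ring
  have h6 := fun i => hc i ev (hb2 i)
  simp only [hb3] at h6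
  have h7 := ht_le_sum F (fun i => ev (g i))
  have h8 := mul_le_mul_of_nonneg_left h7 (Nat.cast_nonneg (α := ℝ) Q)
  have h9 := h6 0
  have h10 := h6 1
  have h11 := h6 2
  rw [Fin.sum_univ_three, Fin.sum_univ_three]
  linarith

variable {τ : K3 Qb →ₐ[Qb] K3 Qb} {G : ℕ → Tup 4 Qb} {a : ℕ → ℕ} {e : ℕ}

/-- the numbers at a good scale for the backward recursion -/
theorem numbersB (hGR4 : T_GR4) (h : Data τ G a e) (he : 1 ≤ e) (c : ℝ) (hec : (e : ℝ) < c)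
    (hgrow : ∀ N, ∃ n ≥ N, ∃ s s' s'' : Fin 3 → Qb,
      c ^ n ≤ (dg Qb {lc s (xx Qb), lc s' (ph τ n), lc s'' (ph τ n)} : ℝ))
    (hslow : ∀ c' : ℝ, (e : ℝ) < c' → ∃ N, ∀ n ≥ N, (a n : ℝ) < c' ^ n) :
    ∃ (m Y Y₂ : ℕ), 1 ≤ m ∧ 1 ≤ Y ∧
      Bd Qb (ph τ m) (ph τ m) (xx Qb) Y ∧
      (∃ s s' s'' : Fin 3 → Qb, dg Qb {lc s (xx Qb), lc s' (ph τ m), lc s'' (ph τ m)} = Y) ∧
      (∃ s s' s'' : Fin 3 → Qb,
        dg Qb {lc s (xx Qb), lc s' (ph τ (m + m)), lc s'' (ph τ (m + m))} = Y₂) ∧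
      54 * e ^ m * Y < Y₂ ∧ 5832 * (e ^ m * a m) * Y ^ 2 ≤ Y₂ ^ 2 ∧
      5832 * (e ^ m * a m) ≤ Y₂ := by
  choose Y _ hY1 hY2 using fun m => exists_max (h.b3 m m)
  have h1 : ∀ m n, Y (m + n) ≤ a n ^ 2 * Y m := by
    intro m n
    obtain ⟨s, s', s'', h2⟩ := hY2 (m + n)
    have h3 := h.ins m n _ _ _ (hY1 m)
    have h4 := h.ins m n _ _ _ h3.swap
    rw [← h2]
    refine (h4 s s' s'').trans (le_of_eq ?_)
    ring
  have hset : ∀ x y z : K3 Qb, ({x, y, z} : Set (K3 Qb)) = {z, x, y} := by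
    intro x y z
    rw [Set.insert_comm z x, Set.pair_comm z y]
  obtain ⟨m, hm, g1, g2, g3⟩ := hGR4 a Y e c h.pos h.sub h1 he hec (by
    intro N
    obtain ⟨n, hn, s, s', s'', h2⟩ := hgrow N
    refine ⟨n, hn, h2.trans ?_⟩
    have h3 := hY1 n s' s'' s
    rw [hset] at h3
    exact_mod_cast h3) hslow
  have hY0 : 1 ≤ Y m := by
    rw [Nat.one_le_iff_ne_zero]
    intro h0
    have h2 := h1 m m
    rw [h0, Nat.mul_zero] at h2
    rw [h0, Nat.mul_zero] at g1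
    omega
  refine ⟨m, Y m, Y (m + m), hm, hY0, hY1 m, ?_, ?_, g1, g2, g3⟩
  · obtain ⟨s, s', s'', h2⟩ := hY2 m
    exact ⟨s'', s, s', by rw [← h2, hset (lc s _)]⟩
  · obtain ⟨s, s', s'', h2⟩ := hY2 (m + m)
    exact ⟨s'', s, s', by rw [← h2, hset (lc s _)]⟩

end Pool.Agent.H18.BKH
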