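import Pool.Agent.H18.BKH.Rec

/-!
# Backward heights: the averaged recursion, part 2
-/

set_option autoImplicit false

open MvPolynomial
open Pool.Agent.H12.ZD (pmap v O Res DenseOrbit NoInv)
open Pool.Agent.H18.HIT
open Pool.Agent.H8.ZA (HFam Const NA sz)
open Pool.Agent.H8.TD
open Pool.Agent.H18.TE

namespace Pool.Agent.H18.BKH

variable {τ : K3 Qb →ₐ[Qb] K3 Qb} {G : ℕ → Tup 4 Qb} {a : ℕ → ℕ} {e : ℕ}

/-- the local recursion for the heights -/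
theorem recL (h : Data τ G a e) (he : 1 ≤ e) {m Y Y₂ : ℕ} (hY : 1 ≤ Y)
    (hBd : Bd Qb (ph τ m) (ph τ m) (xx Qb) Y) (s s' s'' : Fin 3 → Qb)
    (hY₂ : dg Qb {lc s (xx Qb), lc s' (ph τ (m + m)), lc s'' (ph τ (m + m))} = Y₂)
    (hY₂1 : 1 ≤ Y₂) :
    ∃ (r : Po 3 Qb) (p : Fin 3 → Po 3 Qb) (μ : Fin 3 → ℝ) (ν : ℝ), r ≠ 0 ∧ (∀ i, p i ≠ 0) ∧
      ∀ (K' : IntermediateField ℚ Qb) (F : HFam K'), ∃ c : ℝ, ∀ y : Fin 4 → Qb, y 0 ≠ 0 →
        eval (aff y) r ≠ 0 → (∀ i, eval (aff y) (p i) ≠ 0) →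
          (Y₂ : ℝ) * F.ht (aff (pmap (G m) y)) + (∑ i, μ i * lg F (eval (aff y) (p i)) -
            ν * lg F (eval (aff y) r)) ≤ 27 * (e ^ m * Y : ℕ) * F.ht (aff y) +
            27 * (a m * Y : ℕ) * F.ht (aff (pmap (G (m + m)) y)) + c := by
  set q : Po 3 Qb := dh (G m 0) * dh (G (m + m) 0) with hqdef
  have hq : q ≠ 0 := mul_ne_zero (h.ne _) (h.ne _)
  obtain ⟨R, _, _, _, _, _, _, hinj, halg, hevR, hnumR, hfrac⟩ := exists_ring q hq
  choose φ₁ hφ₁ hφ₁' using fun i : Fin 3 => hfrac (dh (G m 0)) (dh (G m i.succ))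
    (Dvd.intro _ rfl)
  choose φ₂ hφ₂ hφ₂' using fun i : Fin 3 => hfrac (dh (G (m + m) 0))
    (dh (G (m + m) i.succ)) (Dvd.intro_left _ rfl)
  set x : Fin 3 → R := fun i => algebraMap (Po 3 Qb) R (X i) with hx
  have e1 : (fun i => algebraMap R (K3 Qb) (φ₁ i)) = ph τ m := by
    funext i
    rw [hφ₁, h.eq]
    rfl
  have e2 : (fun i => algebraMap R (K3 Qb) (φ₂ i)) = ph τ (m + m) := by
    funext i
    rw [hφ₂, h.eq]
    rfl
  have e0 : (fun i => algebraMap R (K3 Qb) (x i)) = xx Qb := by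
    funext i
    rw [hx]
    exact halg (X i)
  have e1' : ∀ i, algebraMap R (K3 Qb) (φ₁ i) = ph τ m i := fun i => congrFun e1 i
  have hb4 : Bd Qb (ph τ m) (ph τ (m + m)) (ph τ (m + m)) (e ^ m * Y) := by
    have h1 : Bd Qb (xx Qb) (ph τ m) (ph τ m) Y := hBd.rot.swap
    have h2 := h.pbk m h1
    have h3 : (fun i => τ^[m] (ph τ m i)) = ph τ (m + m) := funext fun i => ph_add τ m m i
    rw [h3] at h2
    exact h2
  have hM : Bd Qb (ph τ m) (ph τ (m + m)) (xx Qb) (a m * Y) := (h.ins m m Y _ _ hBd).swap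
  have hM1 : 1 ≤ a m * Y := Nat.one_le_iff_ne_zero.2
    (Nat.mul_ne_zero (Nat.one_le_iff_ne_zero.1 (h.pos m)) (Nat.one_le_iff_ne_zero.1 hY))
  obtain ⟨p, μ, ν, hp, hkey⟩ := kin3L q R hinj hevR hnumR x φ₂ φ₁ Y₂ (e ^ m * Y) (a m * Y)
      s s' s''
      (by
        rw [e0, e2, IntermediateField.adjoin_union, adjoin_xx, top_sup_eq])
      hY₂1 hM1 (by
        rw [e0, e2, hY₂]) (by rw [e1, e2]; exact hb4)
      (by rw [e0, e1, e2]; exact hM)
      (by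
        intro i
        rw [e2, e1' i]
        exact Al.ext Qb (K3 Qb) (ph τ (m + m)) (ph τ (m + m)) (ph τ m i) (trdeg_K3 Qb)
          (fg_K3 Qb) (tr_ph τ m i) (alg_ph τ (m + m)) (alg_ph τ (m + m)))
  refine ⟨q, p, μ, ν, hq, hp, fun K' F => ?_⟩
  obtain ⟨c, hc⟩ := hkey K' F
  refine ⟨c, fun y hy0 hyq hyp => ?_⟩
  obtain ⟨ev, hev, hineq⟩ := hc (aff y) hyq hyp
  rw [hqdef, map_mul] at hyq
  have haff : ∀ (n : ℕ) (φ : Fin 3 → R), eval (aff y) (dh (G n 0)) ≠ 0 →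
      (∀ i : Fin 3, φ i * algebraMap (Po 3 Qb) R (dh (G n 0)) =
        algebraMap (Po 3 Qb) R (dh (G n i.succ))) →
      (fun i => ev (φ i)) = aff (pmap (G n) y) := by
    intro n φ hn hφ
    funext i
    have h4 := congrArg ev (hφ i)
    rw [map_mul, hev, hev] at h4
    have h5 : ∀ j, pmap (G n) y j = y 0 ^ a n * eval (aff y) (dh (G n j)) := fun j =>
      eval_aff (h.hom n j) hy0
    rw [aff, h5, h5, mul_div_mul_left _ _ (pow_ne_zero _ hy0), eq_div_iff hn]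
    exact h4
  have f1 := haff m φ₁ (left_ne_zero_of_mul hyq) hφ₁'
  have f2 := haff (m + m) φ₂ (right_ne_zero_of_mul hyq) hφ₂'
  have f3 : (fun i => ev (x i)) = aff y := by
    funext i
    rw [hx]
    simp only
    rw [hev, eval_X]
  rw [f1, f2, f3] at hineq
  exact hineq

/-- **the averaged recursion** -/
theorem recA (hGR4 : T_GR4) (hFIX : T_FIX) (h : Data τ G a e) (he : 1 ≤ e) (c : ℝ)
    (hec : (e : ℝ) < c)
    (hgrow : ∀ N, ∃ n ≥ N, ∃ s s' s'' : Fin 3 → Qb,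
      c ^ n ≤ (dg Qb {lc s (xx Qb), lc s' (ph τ n), lc s'' (ph τ n)} : ℝ))
    (hslow : ∀ c' : ℝ, (e : ℝ) < c' → ∃ N, ∀ n ≥ N, (a n : ℝ) < c' ^ n) :
    ∃ (m Y : ℕ) (κ β : ℝ) (b : Po 4 Qb) (S : Finset Qb) (s s' s'' : Fin 3 → Qb),
      1 ≤ m ∧ 1 ≤ Y ∧ b ≠ 0 ∧ 0 ≤ β ∧ 2 < κ ∧ 8 * β ≤ κ ^ 2 ∧
      8 * β ≤ κ * (Y / (e : ℝ) ^ m) ∧
      dg Qb {lc s (xx Qb), lc s' (ph τ m), lc s'' (ph τ m)} = Y ∧
      ∀ (K : IntermediateField ℚ Qb) (F : HFam K), (∀ x ∈ S, x ∈ K) → ∃ c₀ : ℝ,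
        ∀ (Γ : Finset (Qb ≃ₐ[K] Qb)) (L : IntermediateField K Qb), Gc K Γ L →
          ∀ y : Fin 4 → Qb, (∀ i, y i ∈ L) → eval y b ≠ 0 →
            κ * av F Γ (pmap (G m) y) ≤
              av F Γ y + β * av F Γ (pmap (G (m + m)) y) + Γ.card * c₀ := by
  classical
  obtain ⟨m, Y, Y₂, hm, hY, hBd, ⟨s, s', s'', hYs⟩, ⟨t, t', t'', hYt⟩, g1, g2, g3⟩ :=
    numbersB hGR4 h he c hec hgrow hslow
  have hY₂1 : 1 ≤ Y₂ := Nat.one_le_iff_ne_zero.2 fun h0 => by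
    rw [h0] at g1
    exact Nat.not_lt_zero _ g1
  obtain ⟨r, p, μ, ν, hr, hp, hkey⟩ := recL h he hY hBd t t' t'' hYt hY₂1
  obtain ⟨P, D, hP, hPy⟩ := Al.hmg Qb (r * (p 0 * p 1 * p 2))
    (mul_ne_zero hr (mul_ne_zero (mul_ne_zero (hp 0) (hp 1)) (hp 2)))
  have he0 : (0 : ℝ) < (e : ℝ) ^ m := by
    have : (0 : ℝ) < e := by exact_mod_cast he
    positivity
  have hY0 : (0 : ℝ) < Y := by exact_mod_cast hY
  have hU : (0 : ℝ) < 27 * ((e : ℝ) ^ m * Y) := by positivity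
  refine ⟨m, Y, (Y₂ : ℝ) / (27 * ((e : ℝ) ^ m * Y)), (a m : ℝ) / (e : ℝ) ^ m, X 0 * P,
    (r.coeffs ∪ ((p 0).coeffs ∪ ((p 1).coeffs ∪ (p 2).coeffs))) ∪
      ((Finset.univ.biUnion fun i => (G m i).coeffs) ∪
        (Finset.univ.biUnion fun i => (G (m + m) i).coeffs)), s, s', s'', hm, hY,
    mul_ne_zero (X_ne_zero 0) hP, by positivity, ?_, ?_, ?_, hYs, fun K F hS => ?_⟩
  · rw [lt_div_iff₀ hU]
    have h1 : (54 : ℝ) * (e : ℝ) ^ m * Y < Y₂ := by exact_mod_cast g1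
    linarith
  · rw [div_pow, mul_div_assoc', div_le_div_iff₀ he0 (by positivity)]
    have h1 : (5832 : ℝ) * ((e : ℝ) ^ m * a m) * (Y : ℝ) ^ 2 ≤ (Y₂ : ℝ) ^ 2 := by exact_mod_cast g2
    have h2 := mul_le_mul_of_nonneg_right h1 he0.le
    calc 8 * (a m : ℝ) * (27 * ((e : ℝ) ^ m * Y)) ^ 2 =
        5832 * ((e : ℝ) ^ m * a m) * (Y : ℝ) ^ 2 * (e : ℝ) ^ m := by ring
      _ ≤ _ := h2
  · have h1 : (5832 : ℝ) * ((e : ℝ) ^ m * a m) ≤ (Y₂ : ℝ) := by exact_mod_cast g3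
    have h3 : (Y₂ : ℝ) / (27 * ((e : ℝ) ^ m * Y)) * (Y / (e : ℝ) ^ m) =
        Y₂ / (27 * ((e : ℝ) ^ m * (e : ℝ) ^ m)) := by
      field_simp
    have ha0 : (0 : ℝ) ≤ (e : ℝ) ^ m * a m := by positivity
    rw [h3, mul_div_assoc', div_le_div_iff₀ he0 (by positivity)]
    have h4 : (216 : ℝ) * ((e : ℝ) ^ m * a m) ≤ Y₂ := by linarith
    have h2 := mul_le_mul_of_nonneg_right h4 he0.le
    calc 8 * (a m : ℝ) * (27 * ((e : ℝ) ^ m * (e : ℝ) ^ m)) =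
        216 * ((e : ℝ) ^ m * a m) * (e : ℝ) ^ m := by ring
      _ ≤ _ := h2
  · obtain ⟨c₁, hc₁⟩ := hkey K F
    refine ⟨c₁ / (27 * ((e : ℝ) ^ m * Y)), fun Γ L hΓ y hy hyb => ?_⟩
    have hrK : ∀ x ∈ r.coeffs, x ∈ K := fun x hx =>
      hS x (Finset.mem_union_left _ (Finset.mem_union_left _ hx))
    have hpK : ∀ i, ∀ x ∈ (p i).coeffs, x ∈ K := by
      intro i x hx
      apply hS x (Finset.mem_union_left _ (Finset.mem_union_right _ _))
      fin_cases i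
      · exact Finset.mem_union_left _ hx
      · exact Finset.mem_union_right _ (Finset.mem_union_left _ hx)
      · exact Finset.mem_union_right _ (Finset.mem_union_right _ hx)
    have hG1 : ∀ i, ∀ x ∈ (G m i).coeffs, x ∈ K := fun i x hx =>
      hS x (Finset.mem_union_right _ (Finset.mem_union_left _
        (Finset.mem_biUnion.2 ⟨i, Finset.mem_univ i, hx⟩)))
    have hG2 : ∀ i, ∀ x ∈ (G (m + m) i).coeffs, x ∈ K := fun i x hx =>
      hS x (Finset.mem_union_right _ (Finset.mem_union_right _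
        (Finset.mem_biUnion.2 ⟨i, Finset.mem_univ i, hx⟩)))
    rw [map_mul, eval_X] at hyb
    have hy0 := left_ne_zero_of_mul hyb
    have hyP := right_ne_zero_of_mul hyb
    rw [hPy y hy0, map_mul] at hyP
    have hyr := left_ne_zero_of_mul (right_ne_zero_of_mul hyP)
    have hyp' := right_ne_zero_of_mul (right_ne_zero_of_mul hyP)
    rw [map_mul, map_mul] at hyp'
    have hyp : ∀ i, eval (aff y) (p i) ≠ 0 := by
      intro i
      fin_cases i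
      · exact left_ne_zero_of_mul (left_ne_zero_of_mul hyp')
      · exact right_ne_zero_of_mul (left_ne_zero_of_mul hyp')
      · exact right_ne_zero_of_mul hyp'
    have haffL : ∀ i, aff y i ∈ L := fun i => div_mem (hy _) (hy _)
    have hσ : ∀ σ ∈ Γ, (Y₂ : ℝ) * F.ht (aff fun i => σ (pmap (G m) y i)) +
        (∑ i, μ i * lg F (σ (eval (aff y) (p i))) - ν * lg F (σ (eval (aff y) r))) ≤
        27 * (e ^ m * Y : ℕ) * F.ht (aff fun i => σ (y i)) +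
        27 * (a m * Y : ℕ) * F.ht (aff fun i => σ (pmap (G (m + m)) y i)) + c₁ := by
      intro σ _
      have h1 : ∀ q : Po 3 Qb, (∀ x ∈ q.coeffs, x ∈ K) →
          eval (aff fun i => σ (y i)) q = σ (eval (aff y) q) := by
        intro q hq
        rw [map_eval σ q hq, map_aff]
      have h2 := hc₁ (fun i => σ (y i)) ((map_ne_zero σ).2 hy0)
        (by rw [h1 r hrK]; exact (map_ne_zero σ).2 hyr)
        (by intro i; rw [h1 _ (hpK i)]; exact (map_ne_zero σ).2 (hyp i))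
      rw [h1 r hrK, ← map_pmap σ _ hG1, ← map_pmap σ _ hG2] at h2
      have h3 : ∀ i, eval (aff fun i => σ (y i)) (p i) = σ (eval (aff y) (p i)) := fun i =>
        h1 _ (hpK i)
      simp only [h3] at h2
      exact h2
    have hsum := Finset.sum_le_sum hσ
    have z1 : ∑ σ ∈ Γ, (∑ i, μ i * lg F (σ (eval (aff y) (p i))) -
        ν * lg F (σ (eval (aff y) r))) = 0 := by
      rw [Finset.sum_sub_distrib, Finset.sum_comm, ← Finset.mul_sum,
        Gc.lg_sum hΓ hFIX F (eval_memL r hrK _ haffL) hyr, mul_zero, sub_zero]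
      apply Finset.sum_eq_zero
      intro i _
      rw [← Finset.mul_sum, Gc.lg_sum hΓ hFIX F (eval_memL (p i) (hpK i) _ haffL) (hyp i),
        mul_zero]
    rw [Finset.sum_add_distrib, z1, add_zero, ← Finset.mul_sum, Finset.sum_add_distrib,
      Finset.sum_add_distrib, ← Finset.mul_sum, ← Finset.mul_sum, Finset.sum_const,
      nsmul_eq_mul] at hsum
    change (Y₂ : ℝ) * av F Γ (pmap (G m) y) ≤ 27 * (e ^ m * Y : ℕ) * av F Γ y +
      27 * (a m * Y : ℕ) * av F Γ (pmap (G (m + m)) y) + Γ.card * c₁ at hsum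
    push_cast at hsum
    have h6 : (Y₂ : ℝ) / (27 * ((e : ℝ) ^ m * Y)) * av F Γ (pmap (G m) y) =
        (Y₂ * av F Γ (pmap (G m) y)) / (27 * ((e : ℝ) ^ m * Y)) := by ring
    have h7 : av F Γ y + (a m : ℝ) / (e : ℝ) ^ m * av F Γ (pmap (G (m + m)) y) +
        Γ.card * (c₁ / (27 * ((e : ℝ) ^ m * Y))) =
        (27 * ((e : ℝ) ^ m * Y) * av F Γ y +
          27 * (a m * Y) * av F Γ (pmap (G (m + m)) y) + Γ.card * c₁) /
          (27 * ((e : ℝ) ^ m * Y)) := by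
      field_simp
    rw [h6, h7]
    exact div_le_div_of_nonneg_right hsum hU.le

end Pool.Agent.H18.BKH
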